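import Mathlib

/-!
# Homogeneous sets in sparse graphs (Erdős–Szemerédi)
-/

set_option autoImplicit false

namespace Pool.Agent.H356U

open Finset

theorem ramsey (r : ℕ → ℕ → Prop) (hs : ∀ x y, r x y → r y x) : ∀ (N a b : ℕ), a + b = N →
    ∀ T : Finset ℕ, (a + b).choose a ≤ T.card →
      (∃ C ⊆ T, C.card = a + 1 ∧ ∀ x ∈ C, ∀ y ∈ C, x ≠ y → r x y) ∨
      (∃ J ⊆ T, J.card = b + 1 ∧ ∀ x ∈ J, ∀ y ∈ J, x ≠ y → ¬ r x y) := by
  classical
  intro N
  induction N with
  | zero =>
    intro a b hab T hT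
    obtain ⟨rfl, rfl⟩ : a = 0 ∧ b = 0 := by omega
    rw [Nat.choose_zero_right] at hT
    obtain ⟨x, hx⟩ := card_pos.1 hT
    left
    refine ⟨{x}, singleton_subset_iff.2 hx, by simp, ?_⟩
    intro y hy z hz hyz
    rw [mem_singleton] at hy hz
    exact absurd (hy.trans hz.symm) hyz
  | succ N ih =>
    intro a b hab T hT
    have hpos : 0 < (a + b).choose a := Nat.choose_pos (by omega)
    obtain ⟨x, hx⟩ := card_pos.1 (lt_of_lt_of_le hpos hT)
    rcases Nat.eq_zero_or_pos a with rfl | ha
    · left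
      refine ⟨{x}, singleton_subset_iff.2 hx, by simp, ?_⟩
      intro y hy z hz hyz
      rw [mem_singleton] at hy hz
      exact absurd (hy.trans hz.symm) hyz
    rcases Nat.eq_zero_or_pos b with rfl | hb
    · right
      refine ⟨{x}, singleton_subset_iff.2 hx, by simp, ?_⟩
      intro y hy z hz hyz
      rw [mem_singleton] at hy hz
      exact absurd (hy.trans hz.symm) hyz
    obtain ⟨a, rfl⟩ : ∃ a', a = a' + 1 := ⟨a - 1, by omega⟩
    obtain ⟨b, rfl⟩ : ∃ b', b = b' + 1 := ⟨b - 1, by omega⟩
    have hch : (a + 1 + (b + 1)).choose (a + 1) =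
        (a + (b + 1)).choose a + (a + 1 + b).choose (a + 1) := by
      have e1 : a + 1 + (b + 1) = (a + (b + 1)) + 1 := by ring
      have e2 : a + 1 + b = a + (b + 1) := by ring
      rw [e1, e2, Nat.choose_succ_succ]
    have hsplit : ((T.erase x).filter (fun y => r x y)).card +
        ((T.erase x).filter (fun y => ¬ r x y)).card = T.card - 1 := by
      rw [card_filter_add_card_filter_not, card_erase_of_mem hx]
    have hsub : ∀ (p : ℕ → Prop) [DecidablePred p], (T.erase x).filter p ⊆ T :=
      fun p _ => (filter_subset _ _).trans (erase_subset _ _)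
    rcases Nat.lt_or_ge ((T.erase x).filter (fun y => r x y)).card ((a + (b + 1)).choose a)
      with h | h
    · have h' : (a + 1 + b).choose (a + 1) ≤ ((T.erase x).filter (fun y => ¬ r x y)).card := by
        omega
      rcases ih (a + 1) b (by omega) _ h' with ⟨C, hC, hCc, hC2⟩ | ⟨J, hJ, hJc, hJ2⟩
      · exact Or.inl ⟨C, hC.trans (hsub _), hCc, hC2⟩
      · right
        have hxJ : x ∉ J := fun h => (mem_erase.1 (mem_filter.1 (hJ h)).1).1 rfl
        refine ⟨insert x J, insert_subset hx (hJ.trans (hsub _)), ?_, ?_⟩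
        · rw [card_insert_of_notMem hxJ, hJc]
        · intro y hy z hz hyz
          rcases mem_insert.1 hy with e | hy'
          · rcases mem_insert.1 hz with e' | hz'
            · exact absurd (e.trans e'.symm) hyz
            · rw [e]
              exact (mem_filter.1 (hJ hz')).2
          · rcases mem_insert.1 hz with e' | hz'
            · rw [e']
              exact fun hr => (mem_filter.1 (hJ hy')).2 (hs _ _ hr)
            · exact hJ2 y hy' z hz' hyz
    · rcases ih a (b + 1) (by omega) _ h with ⟨C, hC, hCc, hC2⟩ | ⟨J, hJ, hJc, hJ2⟩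
      · left
        have hxC : x ∉ C := fun h => (mem_erase.1 (mem_filter.1 (hC h)).1).1 rfl
        refine ⟨insert x C, insert_subset hx (hC.trans (hsub _)), ?_, ?_⟩
        · rw [card_insert_of_notMem hxC, hCc]
        · intro y hy z hz hyz
          rcases mem_insert.1 hy with e | hy'
          · rcases mem_insert.1 hz with e' | hz'
            · exact absurd (e.trans e'.symm) hyz
            · rw [e]
              exact (mem_filter.1 (hC hz')).2
          · rcases mem_insert.1 hz with e' | hz'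
            · rw [e']
              exact hs _ _ (mem_filter.1 (hC hy')).2
            · exact hC2 y hy' z hz' hyz
      · exact Or.inr ⟨J, hJ.trans (hsub _), hJc, hJ2⟩

/-- A graph on `S` with few edges has a homogeneous set with `n` elements. -/
theorem sparse (r : ℕ → ℕ → Prop) [DecidableRel r] (hs : ∀ x y, r x y → r y x)
    (E n b F : ℕ) (hn : 1 ≤ n) (hb : 32 * n < E * (b + 1)) (S : Finset ℕ)
    (he : E * ((S ×ˢ S).filter (fun p => r p.1 p.2)).card ≤ 4 * S.card ^ 2)
    (hF : ∀ I : Finset ℕ, I.card ≤ n → (I.powerset.filter (fun T => T.card ≤ b)).card ≤ F)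
    (hm : 4 * (F * (n + (n + b).choose n)) ≤ S.card) :
    ∃ H ⊆ S, H.card = n ∧ ((∀ x ∈ H, ∀ y ∈ H, x ≠ y → r x y) ∨
      (∀ x ∈ H, ∀ y ∈ H, x ≠ y → ¬ r x y)) := by
  classical
  set m := S.card with hmdef
  have hF1 : 1 ≤ F := by
    refine le_trans ?_ (hF ∅ (by simp))
    rw [Nat.one_le_iff_ne_zero, ← Nat.pos_iff_ne_zero, card_pos]
    exact ⟨∅, mem_filter.2 ⟨mem_powerset.2 (empty_subset _), by simp⟩⟩
  have hm0 : 0 < m := by
    have : 0 < 4 * (F * (n + (n + b).choose n)) := by positivity
    omega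
  set d : ℕ → ℕ := fun u => (S.filter (fun v => r u v)).card with hd
  have hde : ∑ u ∈ S, d u = ((S ×ˢ S).filter (fun p => r p.1 p.2)).card := by
    rw [card_filter, sum_product]
    refine sum_congr rfl fun u _ => ?_
    rw [hd]
    simp only
    rw [card_filter]
  -- vertices of small degree
  set V' := S.filter (fun u => E * d u ≤ 8 * m) with hV'
  have h1 : m ≤ 2 * V'.card := by
    set B := S.filter (fun u => ¬ E * d u ≤ 8 * m) with hB
    have hsum : V'.card + B.card = m := card_filter_add_card_filter_not _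
    have hB1 : (8 * m) * B.card ≤ 4 * m ^ 2 := by
      calc (8 * m) * B.card = ∑ _u ∈ B, 8 * m := by rw [sum_const, smul_eq_mul, mul_comm]
        _ ≤ ∑ u ∈ B, E * d u := sum_le_sum fun u hu => (not_le.1 (mem_filter.1 hu).2).le
        _ ≤ ∑ u ∈ S, E * d u := sum_le_sum_of_subset (filter_subset _ _)
        _ = E * ∑ u ∈ S, d u := by rw [mul_sum]
        _ ≤ _ := by rw [hde]; exact he
    have hB2 : (4 * m) * (2 * B.card) ≤ (4 * m) * m := by
      calc (4 * m) * (2 * B.card) = (8 * m) * B.card := by ring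
        _ ≤ 4 * m ^ 2 := hB1
        _ = (4 * m) * m := by ring
    have := Nat.le_of_mul_le_mul_left hB2 (by omega)
    omega
  -- a maximum independent set
  obtain ⟨Ind, hInd⟩ : ∃ Ind : Finset ℕ → Prop, ∀ J, Ind J ↔
      ∀ x ∈ J, ∀ y ∈ J, x ≠ y → ¬ r x y := ⟨_, fun _ => Iff.rfl⟩
  obtain ⟨I, hI, hImax⟩ := exists_max_image (V'.powerset.filter Ind) card
    ⟨∅, mem_filter.2 ⟨mem_powerset.2 (empty_subset _), (hInd ∅).2 (by simp)⟩⟩
  rw [mem_filter, mem_powerset, hInd] at hI
  obtain ⟨hIV, hIind⟩ := hI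
  have hVS : V' ⊆ S := filter_subset _ _
  rcases Nat.lt_or_ge I.card n with hIn | hIn
  swap
  · obtain ⟨H, hH, hHc⟩ := exists_subset_card_eq hIn
    exact ⟨H, hH.trans (hIV.trans hVS), hHc, Or.inr fun x hx y hy => hIind x (hH hx) y (hH hy)⟩
  -- vertices with few neighbours in `I`
  set t : ℕ → ℕ := fun v => (I.filter (fun u => r v u)).card with ht
  have hdt : ∑ v ∈ S, t v = ∑ u ∈ I, d u := by
    simp only [ht, hd, card_filter]
    rw [sum_comm]
    refine sum_congr rfl fun u _ => sum_congr rfl fun v _ => ?_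
    congr 1
    exact propext ⟨hs _ _, hs _ _⟩
  have hEt : E * ∑ v ∈ S, t v ≤ (8 * m) * n := by
    rw [hdt, mul_sum]
    calc ∑ u ∈ I, E * d u ≤ ∑ _u ∈ I, 8 * m :=
          sum_le_sum fun u hu => (mem_filter.1 (hIV hu)).2
      _ = (8 * m) * I.card := by rw [sum_const, smul_eq_mul, mul_comm]
      _ ≤ _ := by gcongr
  set W := V'.filter (fun v => t v ≤ b) with hW
  have h2 : m ≤ 4 * W.card := by
    set B := V'.filter (fun v => ¬ t v ≤ b) with hB
    have hsum : W.card + B.card = V'.card := card_filter_add_card_filter_not _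
    have hB1 : (32 * n) * B.card ≤ (8 * m) * n := by
      calc (32 * n) * B.card = ∑ _u ∈ B, 32 * n := by rw [sum_const, smul_eq_mul, mul_comm]
        _ ≤ ∑ u ∈ B, E * t u := by
            refine sum_le_sum fun u hu => ?_
            have h3 : b + 1 ≤ t u := not_le.1 (mem_filter.1 hu).2
            calc 32 * n ≤ E * (b + 1) := hb.le
              _ ≤ _ := by gcongr
        _ ≤ ∑ u ∈ S, E * t u := sum_le_sum_of_subset ((filter_subset _ _).trans hVS)
        _ = E * ∑ u ∈ S, t u := by rw [mul_sum]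
        _ ≤ _ := hEt
    have hB2 : (8 * n) * (4 * B.card) ≤ (8 * n) * m := by
      calc (8 * n) * (4 * B.card) = (32 * n) * B.card := by ring
        _ ≤ (8 * m) * n := hB1
        _ = (8 * n) * m := by ring
    have := Nat.le_of_mul_le_mul_left hB2 (by omega)
    omega
  -- pigeonhole
  obtain ⟨T, hT, hTc⟩ := exists_le_card_fiber_of_mul_le_card_of_maps_to
    (s := W) (t := I.powerset.filter (fun T => T.card ≤ b)) (f := fun v => I.filter (fun u => r v u))
    (n := n + (n + b).choose n)
    (fun v hv => mem_filter.2 ⟨mem_powerset.2 (filter_subset _ _), (mem_filter.1 hv).2⟩)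
    ⟨∅, mem_filter.2 ⟨mem_powerset.2 (empty_subset _), by simp⟩⟩ (by
      have h3 := Nat.mul_le_mul_right (n + (n + b).choose n) (hF I hIn.le)
      omega)
  rw [mem_filter, mem_powerset] at hT
  set G₀ := W.filter (fun v => I.filter (fun u => r v u) = T) with hG₀
  set G := G₀ \ I with hG
  have hGc : (n + b).choose n ≤ G.card := by
    have h5 : G₀.card - I.card ≤ G.card := by
      rw [hG]
      convert le_card_sdiff I G₀
    have h6 : n + (n + b).choose n ≤ G₀.card := hTc
    omega
  have hGV : G ⊆ V' := (sdiff_subset.trans (filter_subset _ _)).trans (filter_subset _ _)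
  rcases ramsey r hs (n + b) n b rfl G hGc with ⟨C, hC, hCc, hC2⟩ | ⟨J, hJ, hJc, hJ2⟩
  · obtain ⟨H, hH, hHc⟩ := exists_subset_card_eq (by omega : n ≤ C.card)
    exact ⟨H, hH.trans (hC.trans (hGV.trans hVS)), hHc,
      Or.inl fun x hx y hy => hC2 x (hH hx) y (hH hy)⟩
  · exfalso
    have hdis : Disjoint (I \ T) J := by
      rw [disjoint_left]
      intro x hx hxJ
      exact (mem_sdiff.1 (hJ hxJ)).2 (mem_sdiff.1 hx).1
    have hcross : ∀ x ∈ I \ T, ∀ y ∈ J, ¬ r y x := by
      intro x hx y hy hr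
      have h3 := (mem_filter.1 (mem_sdiff.1 (hJ hy)).1).2
      rw [mem_sdiff] at hx
      exact hx.2 (h3 ▸ mem_filter.2 ⟨hx.1, hr⟩)
    have h4 := hImax ((I \ T) ∪ J) (by
      rw [mem_filter, mem_powerset, hInd]
      refine ⟨union_subset (sdiff_subset.trans hIV) (hJ.trans hGV), ?_⟩
      intro x hx y hy hxy
      rcases mem_union.1 hx with hx | hx
      · rcases mem_union.1 hy with hy | hy
        · exact hIind x (mem_sdiff.1 hx).1 y (mem_sdiff.1 hy).1 hxy
        · exact fun hr => hcross x hx y hy (hs _ _ hr)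
      · rcases mem_union.1 hy with hy | hy
        · exact hcross y hy x hx
        · exact hJ2 x hx y hy hxy)
    rw [card_union_of_disjoint hdis, card_sdiff_of_subset hT.1, hJc] at h4
    have := card_le_card hT.1
    omega

end Pool.Agent.H356U
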