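import Pool.Agent.H356U.Rec
import Pool.Agent.H356U.Sparse

/-!
# Two colours: a sparse colour on a large set, and then a homogeneous set
-/

set_option autoImplicit false

namespace Pool.Agent.H356U

open Finset

variable {κ : Type}

/-- the pairs `x < y` in `S` of the colour `a` -/
def prs [DecidableEq κ] (f : ℕ → ℕ → κ) (a : κ) (S : Finset ℕ) : Finset (ℕ × ℕ) :=
  (S ×ˢ S).filter (fun p => p.1 < p.2 ∧ f p.1 p.2 = a)

theorem union_blocks [DecidableEq κ] (f : ℕ → ℕ → κ) (D x : ℕ) (a : κ) (U : Finset ℕ) :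
    ∀ L : List (Finset ℕ), Fam f D x a U L → ∃ S ⊆ U, S.card = L.length * x ∧
      D * (prs f a S).card ≤ L.length * D * x ^ 2 + L.length ^ 2 * x ^ 2 ∧
      (∀ X : Finset ℕ, X.card = x → (∀ Y ∈ L, Good f D a X Y) →
        D * ((X ×ˢ S).filter (fun p => f p.1 p.2 = a)).card ≤ L.length * x ^ 2) ∧
      ∀ z ∈ S, ∃ X ∈ L, z ∈ X := by
  intro L
  induction L with
  | nil =>
    intro _
    refine ⟨∅, empty_subset _, by simp, ?_, ?_, by simp⟩
    · simp [prs]
    · intro X _ _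
      simp
  | cons X L ih =>
    intro h
    obtain ⟨h1, h2⟩ := h
    rw [List.pairwise_cons] at h2
    obtain ⟨S, hSU, hSc, hSp, hSx, hSL⟩ :=
      ih ⟨fun Y hY => h1 Y (List.mem_cons_of_mem _ hY), h2.2⟩
    obtain ⟨hXU, hXc⟩ := h1 X List.mem_cons_self
    have hlt : ∀ y ∈ X, ∀ z ∈ S, y < z := by
      intro y hy z hz
      obtain ⟨Y, hY, hzY⟩ := hSL z hz
      exact (h2.1 Y hY).1 y hy z hzY
    have hdis : Disjoint X S := by
      rw [disjoint_left]
      intro y hy hyS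
      exact lt_irrefl y (hlt y hy y hyS)
    refine ⟨X ∪ S, union_subset hXU hSU, ?_, ?_, ?_, ?_⟩
    · rw [card_union_of_disjoint hdis, hXc, hSc, List.length_cons]
      ring
    · have hsub : prs f a (X ∪ S) ⊆ ((X ×ˢ X) ∪ ((X ×ˢ S).filter (fun p => f p.1 p.2 = a))) ∪
          prs f a S := by
        rintro ⟨y, z⟩ hyz
        simp only [prs, mem_filter, mem_product, mem_union] at hyz ⊢
        obtain ⟨⟨hy, hz⟩, hyz, hf⟩ := hyz
        rcases hy with hy | hy
        · rcases hz with hz | hz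
          · exact Or.inl (Or.inl ⟨hy, hz⟩)
          · exact Or.inl (Or.inr ⟨⟨hy, hz⟩, hf⟩)
        · rcases hz with hz | hz
          · exact absurd (hlt z hz y hy) hyz.not_gt
          · exact Or.inr ⟨⟨hy, hz⟩, hyz, hf⟩
      have hc : (prs f a (X ∪ S)).card ≤ x ^ 2 +
          ((X ×ˢ S).filter (fun p => f p.1 p.2 = a)).card + (prs f a S).card := by
        refine (card_le_card hsub).trans ((card_union_le _ _).trans ?_)
        refine Nat.add_le_add_right ((card_union_le _ _).trans (Nat.add_le_add_right ?_ _)) _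
        rw [card_product, hXc, pow_two]
      have h3 := hSx X hXc h2.1
      rw [List.length_cons]
      calc D * (prs f a (X ∪ S)).card ≤ D * (x ^ 2 +
          ((X ×ˢ S).filter (fun p => f p.1 p.2 = a)).card + (prs f a S).card) := by gcongr
        _ = D * x ^ 2 + D * ((X ×ˢ S).filter (fun p => f p.1 p.2 = a)).card +
            D * (prs f a S).card := by ring
        _ ≤ D * x ^ 2 + L.length * x ^ 2 +
            (L.length * D * x ^ 2 + L.length ^ 2 * x ^ 2) := by gcongr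
        _ ≤ (L.length + 1) * D * x ^ 2 + (L.length + 1) ^ 2 * x ^ 2 := by
            have : (L.length + 1) ^ 2 * x ^ 2 =
              L.length ^ 2 * x ^ 2 + L.length * x ^ 2 + L.length * x ^ 2 + x ^ 2 := by ring
            rw [this]
            nlinarith [Nat.zero_le (L.length * x ^ 2), Nat.zero_le (x ^ 2)]
    · intro Z hZ hg
      have hsub : (Z ×ˢ (X ∪ S)).filter (fun p => f p.1 p.2 = a) ⊆
          (Z ×ˢ X).filter (fun p => f p.1 p.2 = a) ∪ (Z ×ˢ S).filter (fun p => f p.1 p.2 = a) := by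
        rintro ⟨y, z⟩ hyz
        simp only [mem_filter, mem_product, mem_union] at hyz ⊢
        tauto
      have h3 := hSx Z hZ fun Y hY => hg Y (List.mem_cons_of_mem _ hY)
      have h4 := (hg X List.mem_cons_self).2
      rw [hZ, hXc] at h4
      rw [List.length_cons]
      calc D * ((Z ×ˢ (X ∪ S)).filter (fun p => f p.1 p.2 = a)).card
          ≤ D * (((Z ×ˢ X).filter (fun p => f p.1 p.2 = a)).card +
            ((Z ×ˢ S).filter (fun p => f p.1 p.2 = a)).card) := by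
            gcongr
            exact (card_le_card hsub).trans (card_union_le _ _)
        _ = D * ((Z ×ˢ X).filter (fun p => f p.1 p.2 = a)).card +
            D * ((Z ×ˢ S).filter (fun p => f p.1 p.2 = a)).card := by ring
        _ ≤ x * x + L.length * x ^ 2 := by gcongr
        _ = (L.length + 1) * x ^ 2 := by ring
    · intro z hz
      rcases mem_union.1 hz with hz | hz
      · exact ⟨X, List.mem_cons_self, hz⟩
      · obtain ⟨Y, hY, hzY⟩ := hSL z hz
        exact ⟨Y, List.mem_cons_of_mem _ hY, hzY⟩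

/-- the graph of the colour `a` -/
def rel (f : ℕ → ℕ → κ) (a : κ) (x y : ℕ) : Prop := x ≠ y ∧ f (min x y) (max x y) = a

instance [DecidableEq κ] (f : ℕ → ℕ → κ) (a : κ) : DecidableRel (rel f a) := fun x y => by
  unfold rel
  infer_instance

theorem rel_symm (f : ℕ → ℕ → κ) (a : κ) (x y : ℕ) (h : rel f a x y) : rel f a y x :=
  ⟨h.1.symm, by rw [min_comm, max_comm]; exact h.2⟩

theorem rel_count [DecidableEq κ] (f : ℕ → ℕ → κ) (a : κ) (S : Finset ℕ) :
    ((S ×ˢ S).filter (fun p => rel f a p.1 p.2)).card ≤ 2 * (prs f a S).card := by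
  have hsub : (S ×ˢ S).filter (fun p => rel f a p.1 p.2) ⊆
      prs f a S ∪ (prs f a S).image Prod.swap := by
    rintro ⟨y, z⟩ hyz
    simp only [mem_filter, mem_product, rel] at hyz
    obtain ⟨⟨hy, hz⟩, hne, hf⟩ := hyz
    rw [mem_union]
    rcases lt_or_gt_of_ne hne with h | h
    · left
      rw [min_eq_left h.le, max_eq_right h.le] at hf
      exact mem_filter.2 ⟨mem_product.2 ⟨hy, hz⟩, h, hf⟩
    · right
      rw [min_eq_right h.le, max_eq_left h.le] at hf
      exact mem_image.2 ⟨(z, y), mem_filter.2 ⟨mem_product.2 ⟨hz, hy⟩, h, hf⟩, rfl⟩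
  calc _ ≤ _ := card_le_card hsub
    _ ≤ (prs f a S).card + ((prs f a S).image Prod.swap).card := card_union_le _ _
    _ ≤ (prs f a S).card + (prs f a S).card := Nat.add_le_add_left card_image_le _
    _ = _ := by ring

theorem num_bound2 (k g : ℕ) :
    (2 * k ^ 2 * (2 ^ (3 * g)) ^ k) ^ (2 * g) ≤ 2 ^ (2 * g * (1 + k * (3 * g + 2))) := by
  have h1 : k ^ 2 ≤ 2 ^ (2 * k) := by
    calc k ^ 2 ≤ (2 ^ k) ^ 2 := Nat.pow_le_pow_left (Nat.lt_two_pow_self).le 2
      _ = 2 ^ (2 * k) := by rw [← pow_mul, mul_comm]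
  have h2 : 2 * k ^ 2 * (2 ^ (3 * g)) ^ k ≤ 2 ^ (1 + k * (3 * g + 2)) := by
    calc 2 * k ^ 2 * (2 ^ (3 * g)) ^ k ≤ 2 * 2 ^ (2 * k) * (2 ^ (3 * g)) ^ k := by gcongr
      _ = 2 ^ (1 + k * (3 * g + 2)) := by
        rw [← pow_mul, ← pow_succ', ← pow_add]
        congr 1
        ring
  calc (2 * k ^ 2 * (2 ^ (3 * g)) ^ k) ^ (2 * g) ≤ (2 ^ (1 + k * (3 * g + 2))) ^ (2 * g) :=
        Nat.pow_le_pow_left h2 _
    _ = _ := by rw [← pow_mul, mul_comm]

/-- a 2-colouring of the pairs without the pattern has a large homogeneous set -/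
theorem graphB (f P : ℕ → ℕ → Bool) (k g n b F X₀ : ℕ) (hk : 1 ≤ k) (hn : 1 ≤ n)
    (hb : 32 * n < 2 ^ g * (b + 1))
    (hF : ∀ I : Finset ℕ, I.card ≤ n → (I.powerset.filter (fun T => T.card ≤ b)).card ≤ F)
    (hm : 4 * (F * (n + (n + b).choose n)) ≤ 2 ^ (g + X₀)) (U : Finset ℕ)
    (hU : 2 ^ (2 * g * (1 + k * (3 * g + 2)) + X₀) ≤ U.card) (hno : ¬ Emb f P k U) :
    ∃ H ⊆ U, H.card = n ∧ ∃ a, ∀ x ∈ H, ∀ y ∈ H, x < y → f x y = a := by
  obtain ⟨L, hL1, -, hL3⟩ := main_rec f P k (2 ^ (3 * g)) (2 ^ g) (2 ^ X₀) hk Nat.one_le_two_pow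
    Nat.one_le_two_pow Nat.one_le_two_pow (2 * g) (by rw [← pow_add]; exact le_of_eq (by congr 1; ring))
    U (by
      refine le_trans ?_ hU
      rw [pow_add]
      exact Nat.mul_le_mul_right _ (num_bound2 k g)) hno
  obtain ⟨a, ha⟩ := long 2 g (by simp) (fun a => (L a).length) hL3 (by norm_num)
  have hfam : Fam f (2 ^ g) (2 ^ X₀) a U ((L a).take (2 ^ g)) :=
    ⟨fun X hX => (hL1 a).1 X (List.mem_of_mem_take hX),
      (hL1 a).2.sublist (List.take_sublist _ _)⟩
  have hlen : ((L a).take (2 ^ g)).length = 2 ^ g := by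
    rw [List.length_take]
    exact min_eq_left ha
  obtain ⟨S, hSU, hSc, hSp, -, -⟩ := union_blocks f (2 ^ g) (2 ^ X₀) a U _ hfam
  rw [hlen] at hSc hSp
  have hcnt : 2 ^ g * ((S ×ˢ S).filter (fun p => rel f a p.1 p.2)).card ≤ 4 * S.card ^ 2 := by
    calc 2 ^ g * ((S ×ˢ S).filter (fun p => rel f a p.1 p.2)).card
        ≤ 2 ^ g * (2 * (prs f a S).card) := Nat.mul_le_mul_left _ (rel_count f a S)
      _ = 2 * (2 ^ g * (prs f a S).card) := by ring
      _ ≤ 2 * (2 ^ g * 2 ^ g * (2 ^ X₀) ^ 2 + (2 ^ g) ^ 2 * (2 ^ X₀) ^ 2) := by gcongr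
      _ = 4 * (2 ^ g * 2 ^ X₀) ^ 2 := by ring
      _ = _ := by rw [hSc]
  obtain ⟨H, hH, hHc, hhom⟩ := sparse (rel f a) (rel_symm f a) (2 ^ g) n b F hn
    hb S hcnt hF (by rw [hSc, ← pow_add]; exact hm)
  refine ⟨H, hH.trans hSU, hHc, ?_⟩
  rcases hhom with h | h
  · refine ⟨a, fun x hx y hy hxy => ?_⟩
    have := (h x hx y hy hxy.ne).2
    rwa [min_eq_left hxy.le, max_eq_right hxy.le] at this
  · refine ⟨!a, fun x hx y hy hxy => ?_⟩
    have := h x hx y hy hxy.ne
    rw [rel, min_eq_left hxy.le, max_eq_right hxy.le, not_and] at this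
    exact Bool.eq_not.2 (this hxy.ne)

end Pool.Agent.H356U
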