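import Pool.Agent.H356U.Rec
import Pool.Agent.Y424.LK.QLink

/-!
# Patterns in colourings of `r`-subsets: a colour which is missing on a large set
-/

set_option autoImplicit false

namespace Pool.Agent.H356U

open Finset Pool.Agent.Y424.LK

variable {κ : Type}

theorem singles [DecidableEq κ] (f : ℕ → ℕ → κ) (a : κ) (U : Finset ℕ) :
    ∀ L : List (Finset ℕ), Fam f 2 1 a U L → ∃ Z ⊆ U, Z.card = L.length ∧
      (∀ x ∈ Z, ∀ y ∈ Z, x < y → f x y ≠ a) ∧ ∀ z ∈ Z, ∃ X ∈ L, z ∈ X := by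
  intro L
  induction L with
  | nil =>
    intro _
    exact ⟨∅, empty_subset _, rfl, by simp, by simp⟩
  | cons X L ih =>
    intro h
    obtain ⟨h1, h2⟩ := h
    rw [List.pairwise_cons] at h2
    obtain ⟨Z, hZU, hZc, hZ, hZL⟩ := ih ⟨fun Y hY => h1 Y (List.mem_cons_of_mem _ hY), h2.2⟩
    obtain ⟨hXU, hXc⟩ := h1 X List.mem_cons_self
    obtain ⟨x, rfl⟩ := card_eq_one.1 hXc
    have hlt : ∀ z ∈ Z, x < z ∧ f x z ≠ a := by
      intro z hz
      obtain ⟨Y, hY, hzY⟩ := hZL z hz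
      obtain ⟨hg1, hg2⟩ := h2.1 Y hY
      refine ⟨hg1 x (mem_singleton_self x) z hzY, fun hfa => ?_⟩
      have hYc := (h1 Y (List.mem_cons_of_mem _ hY)).2
      rw [hYc, card_singleton] at hg2
      have : 0 < ((({x} : Finset ℕ) ×ˢ Y).filter (fun p => f p.1 p.2 = a)).card := by
        rw [card_pos]
        exact ⟨(x, z), mem_filter.2 ⟨mem_product.2 ⟨mem_singleton_self x, hzY⟩, hfa⟩⟩
      omega
    have hx : x ∉ Z := fun hx => lt_irrefl x (hlt x hx).1
    refine ⟨insert x Z, ?_, ?_, ?_, ?_⟩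
    · intro y hy
      rcases mem_insert.1 hy with rfl | hy
      · exact hXU (mem_singleton_self y)
      · exact hZU hy
    · rw [card_insert_of_notMem hx, hZc, List.length_cons]
    · intro y hy z hz hyz
      rcases mem_insert.1 hy with e | hy'
      · rcases mem_insert.1 hz with e' | hz'
        · exact absurd hyz (by rw [e, e']; exact lt_irrefl _)
        · rw [e]
          exact (hlt z hz').2
      · rcases mem_insert.1 hz with e' | hz'
        · rw [e'] at hyz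
          exact absurd hyz (hlt y hy').1.not_gt
        · exact hZ y hy' z hz' hyz
    · intro z hz
      rcases mem_insert.1 hz with rfl | hz
      · exact ⟨{z}, List.mem_cons_self, mem_singleton_self z⟩
      · obtain ⟨Y, hY, hzY⟩ := hZL z hz
        exact ⟨Y, List.mem_cons_of_mem _ hY, hzY⟩

theorem num_bound (k H : ℕ) : (2 * k ^ 2 * (2 ^ (H + 1)) ^ k) ^ H ≤ 2 ^ (H * (1 + k * (H + 3))) := by
  have h1 : k ^ 2 ≤ 2 ^ (2 * k) := by
    calc k ^ 2 ≤ (2 ^ k) ^ 2 := Nat.pow_le_pow_left (Nat.lt_two_pow_self).le 2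
      _ = 2 ^ (2 * k) := by rw [← pow_mul, mul_comm]
  have h2 : 2 * k ^ 2 * (2 ^ (H + 1)) ^ k ≤ 2 ^ (1 + k * (H + 3)) := by
    calc 2 * k ^ 2 * (2 ^ (H + 1)) ^ k ≤ 2 * 2 ^ (2 * k) * (2 ^ (H + 1)) ^ k := by gcongr
      _ = 2 ^ (1 + k * (H + 3)) := by
        rw [← pow_mul, ← pow_succ', ← pow_add]
        congr 1
        ring
  calc (2 * k ^ 2 * (2 ^ (H + 1)) ^ k) ^ H ≤ (2 ^ (1 + k * (H + 3))) ^ H :=
        Nat.pow_le_pow_left h2 H
    _ = _ := by rw [← pow_mul, mul_comm]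

theorem graphA [Fintype κ] [DecidableEq κ] (f P : ℕ → ℕ → κ) (k h : ℕ) (hk : 1 ≤ k)
    (hq : 1 ≤ Fintype.card κ) (U : Finset ℕ)
    (hU : 2 ^ (Fintype.card κ * h * (1 + k * (Fintype.card κ * h + 3))) ≤ U.card)
    (hno : ¬ Emb f P k U) :
    ∃ a, ∃ Z ⊆ U, Z.card = 2 ^ h ∧ ∀ x ∈ Z, ∀ y ∈ Z, x < y → f x y ≠ a := by
  set H := Fintype.card κ * h with hH
  obtain ⟨L, hL1, -, hL3⟩ := main_rec f P k (2 ^ (H + 1)) 2 1 hk Nat.one_le_two_pow (by norm_num)
    le_rfl H (by rw [pow_succ]) U (by rw [mul_one]; exact (num_bound k H).trans hU) hno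
  obtain ⟨a, ha⟩ := long (Fintype.card κ) h rfl (fun a => (L a).length) hL3 hq
  obtain ⟨Z, hZU, hZc, hZ, -⟩ := singles f a U (L a) (hL1 a)
  obtain ⟨Z', hZ', hZc'⟩ := exists_subset_card_eq (hZc.symm ▸ ha : 2 ^ h ≤ Z.card)
  exact ⟨a, Z', hZ'.trans hZU, hZc', fun x hx y hy => hZ x (hZ' hx) y (hZ' hy)⟩

/-- The colouring `c` of the subsets of `{0, …, N - 1}` with `r` elements contains the pattern `P`
on `k` points: there are `v 0 < v 1 < … < v (k - 1)` below `N` such that every set of `r` of these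
points, the two smallest of which are `v i < v j`, has the colour `P i j`. -/
def Contains (r : ℕ) (c : Finset ℕ → κ) (P : ℕ → ℕ → κ) (k N : ℕ) : Prop :=
  ∃ v : ℕ → ℕ, (∀ i, i < k → v i < N) ∧ (∀ i j, i < j → j < k → v i < v j) ∧
    ∀ B ⊆ range k, B.card = r → ∀ i ∈ B, ∀ j ∈ B, i < j → (∀ t ∈ B, t = i ∨ j ≤ t) →
      c (B.image v) = P i j

/-- a set with at least two elements has a smallest and a second smallest one -/
theorem two_min (A : Finset ℕ) (hA : 2 ≤ A.card) :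
    ∃ x ∈ A, ∃ y ∈ A, x < y ∧ ∀ z ∈ A, z = x ∨ y ≤ z := by
  have hne : A.Nonempty := by rw [← card_pos]; omega
  have hne2 : (A.erase (A.min' hne)).Nonempty := by
    rw [← card_pos, card_erase_of_mem (min'_mem A hne)]; omega
  refine ⟨A.min' hne, min'_mem _ _, (A.erase (A.min' hne)).min' hne2,
    mem_of_mem_erase (min'_mem _ hne2), ?_, ?_⟩
  · have h1 := min'_mem _ hne2
    rw [mem_erase] at h1
    exact lt_of_le_of_ne (min'_le A _ h1.2) h1.1.symm
  · intro z hz
    by_cases h : z = A.min' hne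
    · exact Or.inl h
    · exact Or.inr (min'_le _ _ (mem_erase.2 ⟨h, hz⟩))

theorem contains_of_emb (s : ℕ) (c : Finset ℕ → κ) (P : ℕ → ℕ → κ) (k N : ℕ) (U S : Finset ℕ)
    (hU : U ⊆ range N) (hL : LinkOn s c U S)
    (h : Emb (fun x y => c (insert x (insert y S))) P k U) : Contains (s + 2) c P k N := by
  obtain ⟨v, h1, h2⟩ := h
  refine ⟨v, fun i hi => mem_range.1 (hU (h1 i hi)), fun i j hij hj => (h2 i j hij hj).1, ?_⟩
  intro B hB hBc i hi j hj hij hmin
  have hlt : ∀ t ∈ B, t < k := fun t ht => mem_range.1 (hB ht)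
  have hinj : Set.InjOn v (B : Set ℕ) := by
    intro a ha b hb hab
    by_contra hne
    rcases lt_or_gt_of_ne hne with hl | hl
    · exact absurd hab (h2 a b hl (hlt b hb)).1.ne
    · exact absurd hab.symm (h2 b a hl (hlt a ha)).1.ne
  have h3 := hL (B.image v) (by
    intro x hx
    obtain ⟨t, ht, rfl⟩ := mem_image.1 hx
    exact h1 t (hlt t ht)) (by rw [card_image_of_injOn hinj, hBc]) (v i) (mem_image_of_mem v hi)
    (v j) (mem_image_of_mem v hj) (h2 i j hij (hlt j hj)).1 (by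
    intro z hz
    obtain ⟨t, ht, rfl⟩ := mem_image.1 hz
    rcases hmin t ht with rfl | ht2
    · exact Or.inl rfl
    · right
      rcases Nat.eq_or_lt_of_le ht2 with rfl | ht3
      · exact le_rfl
      · exact (h2 j t ht3 (hlt t ht)).1.le)
  rw [h3]
  exact (h2 i j hij (hlt j hj)).2

/-- Part (A): a colouring without the pattern misses a colour on a large set. -/
theorem partA [Fintype κ] (P : ℕ → ℕ → κ) (s k h l N : ℕ) (hk : 1 ≤ k) (hl : 1 ≤ l)
    (hq : 1 ≤ Fintype.card κ) (hql : Fintype.card κ ≤ 2 ^ l) (c : Finset ℕ → κ)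
    (hN : twr (s + 1) (2 * (Fintype.card κ * h * (1 + k * (Fintype.card κ * h + 3))) +
      l * (s + 2) ^ 2) ≤ N) :
    Contains (s + 2) c P k N ∨
      ∃ a, ∃ Z ⊆ range N, Z.card = 2 ^ h ∧ ∀ A ⊆ Z, A.card = s + 2 → c A ≠ a := by
  classical
  set Y := Fintype.card κ * h * (1 + k * (Fintype.card κ * h + 3)) with hY
  obtain ⟨U, hU, S, hS, hUc, hSc, hlt, hL⟩ := linkQ κ (2 ^ Y) s (range N) (by
    rw [card_range]
    exact (NQ_le (Fintype.card κ) l hl hql Y s).trans hN) c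
  by_cases hE : Emb (fun x y => c (insert x (insert y S))) P k U
  · exact Or.inl (contains_of_emb s c P k N U S hU hL hE)
  · right
    obtain ⟨a, Z, hZ, hZc, hZa⟩ := graphA (fun x y => c (insert x (insert y S))) P k h hk hq U
      hUc.ge hE
    refine ⟨a, Z, hZ.trans hU, hZc, fun A hA hAc => ?_⟩
    obtain ⟨x, hx, y, hy, hxy, hmin⟩ := two_min A (by omega)
    rw [hL A (hA.trans hZ) hAc x hx y hy hxy hmin]
    exact hZa x (hA hx) y (hA hy) hxy

end Pool.Agent.H356U
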