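import Mathlib

/-!
# Embedding an ordered pattern greedily, or finding a pair in which a colour is rare
-/

set_option autoImplicit false

namespace Pool.Agent.H356U

open Finset

variable {κ : Type}

/-- `U` contains the pattern `P` on `k` points for the colouring `f` of the pairs `x < y`. -/
def Emb (f P : ℕ → ℕ → κ) (k : ℕ) (U : Finset ℕ) : Prop :=
  ∃ v : ℕ → ℕ, (∀ i, i < k → v i ∈ U) ∧ ∀ i j, i < j → j < k → v i < v j ∧ f (v i) (v j) = P i j

theorem Emb.mono {f P : ℕ → ℕ → κ} {k : ℕ} {U W : Finset ℕ} (h : U ⊆ W) (he : Emb f P k U) :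
    Emb f P k W := by
  obtain ⟨v, hv, h2⟩ := he
  exact ⟨v, fun i hi => h (hv i hi), h2⟩

theorem greedy [DecidableEq κ] (f : ℕ → ℕ → κ) (Q w K : ℕ) (hQ : 1 ≤ Q) (hw : 1 ≤ w) :
    ∀ k ≤ K, ∀ (P : ℕ → ℕ → κ) (V : ℕ → Finset ℕ), (∀ i, i < k → K * Q ^ k * w ≤ (V i).card) →
      (∃ v : ℕ → ℕ, (∀ i, i < k → v i ∈ V i) ∧ ∀ i j, i < j → j < k → f (v i) (v j) = P i j) ∨
      ∃ (i j : ℕ) (A B : Finset ℕ) (a : κ), i < j ∧ j < k ∧ A ⊆ V i ∧ B ⊆ V j ∧
        w ≤ A.card ∧ w ≤ B.card ∧ ∀ x ∈ A, Q * (B.filter (fun y => f x y = a)).card < B.card := by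
  intro k
  induction k with
  | zero =>
    intro _ P V _
    left
    exact ⟨fun _ => 0, fun i hi => absurd hi (Nat.not_lt_zero i),
      fun i j _ hj => absurd hj (Nat.not_lt_zero j)⟩
  | succ k ih =>
    intro hk P V hV
    have hK : 1 ≤ K := by omega
    have hpow : 1 ≤ Q ^ (k + 1) := Nat.one_le_pow _ _ hQ
    have hV0 : K * Q ^ (k + 1) * w ≤ (V 0).card := hV 0 (Nat.succ_pos k)
    have hbig : K * w ≤ K * Q ^ (k + 1) * w := by
      calc K * w = K * 1 * w := by ring
        _ ≤ _ := by gcongr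
    by_cases hgood : ∃ a ∈ V 0, ∀ j, j < k →
        (V (j + 1)).card ≤ Q * ((V (j + 1)).filter (fun y => f a y = P 0 (j + 1))).card
    · obtain ⟨a, ha, hgood⟩ := hgood
      have hcard : ∀ i, i < k → K * Q ^ k * w ≤
          ((V (i + 1)).filter (fun y => f a y = P 0 (i + 1))).card := by
        intro i hi
        have h1 := (hV (i + 1) (by omega)).trans (hgood i hi)
        have h2 : K * Q ^ (k + 1) * w = Q * (K * Q ^ k * w) := by ring
        rw [h2] at h1
        exact Nat.le_of_mul_le_mul_left h1 hQ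
      rcases ih (by omega) (fun i j => P (i + 1) (j + 1))
        (fun i => (V (i + 1)).filter (fun y => f a y = P 0 (i + 1))) hcard with h | h
      · obtain ⟨v, hv1, hv2⟩ := h
        left
        refine ⟨fun i => Nat.casesOn i a v, ?_, ?_⟩
        · intro i hi
          cases i with
          | zero => exact ha
          | succ i => exact (mem_filter.1 (hv1 i (by omega))).1
        · intro i j hij hj
          cases j with
          | zero => exact absurd hij (Nat.not_lt_zero i)
          | succ j =>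
            cases i with
            | zero => exact (mem_filter.1 (hv1 j (by omega))).2
            | succ i => exact hv2 i j (by omega) (by omega)
      · obtain ⟨i, j, A, B, b, hij, hj, hA, hB, hAc, hBc, hb⟩ := h
        right
        exact ⟨i + 1, j + 1, A, B, b, by omega, by omega, hA.trans (filter_subset _ _),
          hB.trans (filter_subset _ _), hAc, hBc, hb⟩
    · push Not at hgood
      have hne : (V 0).Nonempty := by
        rw [← card_pos]
        have : 1 ≤ K * w := Nat.mul_le_mul hK hw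
        omega
      choose! g hg using hgood
      have hk0 : 0 < k := by
        obtain ⟨a, ha⟩ := hne
        have := (hg a ha).1
        omega
      obtain ⟨j, hj, hjc⟩ := exists_le_card_fiber_of_mul_le_card_of_maps_to
        (s := V 0) (t := range k) (f := g) (n := w)
        (fun a ha => mem_range.2 (hg a ha).1) ⟨0, mem_range.2 hk0⟩ (by
          rw [card_range]
          calc k * w ≤ K * w := by gcongr; omega
            _ ≤ _ := hbig
            _ ≤ _ := hV0)
      rw [mem_range] at hj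
      right
      refine ⟨0, j + 1, (V 0).filter (fun a => g a = j), V (j + 1), P 0 (j + 1), by omega,
        by omega, filter_subset _ _, Subset.refl _, hjc, ?_, ?_⟩
      · calc w ≤ K * w := by nlinarith
          _ ≤ _ := hbig
          _ ≤ _ := hV (j + 1) (by omega)
      · intro x hx
        rw [mem_filter] at hx
        have h1 := (hg x hx.1).2
        rw [hx.2] at h1
        exact h1

theorem split (U : Finset ℕ) (M k : ℕ) (h : k * M ≤ U.card) :
    ∃ V : ℕ → Finset ℕ, (∀ i, i < k → V i ⊆ U ∧ (V i).card = M) ∧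
      ∀ i j, i < j → j < k → ∀ x ∈ V i, ∀ y ∈ V j, x < y := by
  classical
  set g : ℕ → ℕ := fun t => if h : t < U.card then U.orderEmbOfFin rfl ⟨t, h⟩ else 0 with hg
  have hgU : ∀ t, t < U.card → g t ∈ U := by
    intro t ht
    rw [hg]
    simp only [ht, dif_pos]
    exact orderEmbOfFin_mem U rfl _
  have hgm : ∀ s t, s < t → t < U.card → g s < g t := by
    intro s t hst ht
    rw [hg]
    simp only [ht, hst.trans ht, dif_pos]
    exact (U.orderEmbOfFin rfl).strictMono (by simpa using hst)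
  have hbd : ∀ i t, i < k → t ∈ Ico (i * M) ((i + 1) * M) → t < U.card := by
    intro i t hi ht
    rw [mem_Ico] at ht
    have : (i + 1) * M ≤ k * M := Nat.mul_le_mul_right M hi
    omega
  refine ⟨fun i => (Ico (i * M) ((i + 1) * M)).image g, ?_, ?_⟩
  · intro i hi
    constructor
    · intro x hx
      obtain ⟨t, ht, rfl⟩ := mem_image.1 hx
      exact hgU t (hbd i t hi ht)
    · rw [card_image_of_injOn, Nat.card_Ico]
      · rw [add_mul, one_mul]; omega
      · intro s hs t ht hst
        by_contra hne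
        rcases lt_or_gt_of_ne hne with hlt | hlt
        · exact absurd hst (hgm s t hlt (hbd i t hi ht)).ne
        · exact absurd hst.symm (hgm t s hlt (hbd i s hi hs)).ne
  · intro i j hij hj x hx y hy
    obtain ⟨s, hs, rfl⟩ := mem_image.1 hx
    obtain ⟨t, ht, rfl⟩ := mem_image.1 hy
    refine hgm s t ?_ (hbd j t hj ht)
    rw [mem_Ico] at hs ht
    have : (i + 1) * M ≤ j * M := Nat.mul_le_mul_right M hij
    omega

theorem pair [DecidableEq κ] (f P : ℕ → ℕ → κ) (k Q w : ℕ) (hQ : 1 ≤ Q) (hw : 1 ≤ w)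
    (U : Finset ℕ) (hU : k * (k * Q ^ k * w) ≤ U.card) (hno : ¬ Emb f P k U) :
    ∃ (A B : Finset ℕ) (a : κ), A ⊆ U ∧ B ⊆ U ∧ (∀ x ∈ A, ∀ y ∈ B, x < y) ∧
      w ≤ A.card ∧ w ≤ B.card ∧ ∀ x ∈ A, Q * (B.filter (fun y => f x y = a)).card < B.card := by
  obtain ⟨V, hV1, hV2⟩ := split U (k * Q ^ k * w) k hU
  rcases greedy f Q w k hQ hw k le_rfl P V (fun i hi => (hV1 i hi).2.ge) with h | h
  · exfalso
    obtain ⟨v, h1, h2⟩ := h
    exact hno ⟨v, fun i hi => (hV1 i hi).1 (h1 i hi), fun i j hij hj =>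
      ⟨hV2 i j hij hj _ (h1 i (hij.trans hj)) _ (h1 j hj), h2 i j hij hj⟩⟩
  · obtain ⟨i, j, A, B, a, hij, hj, hA, hB, hAc, hBc, ha⟩ := h
    exact ⟨A, B, a, hA.trans (hV1 i (hij.trans hj)).1, hB.trans (hV1 j hj).1,
      fun x hx y hy => hV2 i j hij hj x (hA hx) y (hB hy), hAc, hBc, ha⟩

end Pool.Agent.H356U
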