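import Mathlib

/-!
# Numerical estimates
-/

set_option autoImplicit false

namespace Pool.Agent.H356U

open Finset Filter Topology

theorem count_small (E b n : ℕ) (hE : 1 ≤ E) (I : Finset ℕ) (hI : I.card ≤ n) :
    (((I.powerset.filter (fun T => T.card ≤ b)).card : ℕ) : ℝ) ≤
      (E : ℝ) ^ b * (1 + 1 / (E : ℝ)) ^ n := by
  have hE0 : (0 : ℝ) < E := by exact_mod_cast hE
  have hE1 : (1 : ℝ) ≤ E := by exact_mod_cast hE
  calc (((I.powerset.filter (fun T => T.card ≤ b)).card : ℕ) : ℝ)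
      = ∑ _T ∈ I.powerset.filter (fun T => T.card ≤ b), (1 : ℝ) := by
        rw [sum_const, nsmul_eq_mul, mul_one]
    _ ≤ ∑ T ∈ I.powerset.filter (fun T => T.card ≤ b), (E : ℝ) ^ b * (1 / (E : ℝ)) ^ T.card := by
        refine sum_le_sum fun T hT => ?_
        have hTb := (mem_filter.1 hT).2
        rw [one_div, inv_pow, ← div_eq_mul_inv, one_le_div (by positivity)]
        exact pow_le_pow_right₀ hE1 hTb
    _ ≤ ∑ T ∈ I.powerset, (E : ℝ) ^ b * (1 / (E : ℝ)) ^ T.card :=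
        sum_le_sum_of_subset_of_nonneg (filter_subset _ _) fun T _ _ => by positivity
    _ = (E : ℝ) ^ b * (1 + 1 / (E : ℝ)) ^ I.card := by
        rw [← mul_sum, add_comm (1 : ℝ), ← Finset.sum_pow_mul_eq_add_pow]
        simp
    _ ≤ (E : ℝ) ^ b * (1 + 1 / (E : ℝ)) ^ n := by
        gcongr
        have : (0 : ℝ) ≤ 1 / (E : ℝ) := by positivity
        linarith

theorem choose_small (E b N : ℕ) (hE : 1 ≤ E) :
    ((N.choose b : ℕ) : ℝ) ≤ (E : ℝ) ^ b * (1 + 1 / (E : ℝ)) ^ N := by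
  refine le_trans ?_ (count_small E b N hE (range N) (by rw [card_range]))
  rw [Nat.cast_le]
  calc N.choose b = (powersetCard b (range N)).card := by rw [card_powersetCard, card_range]
    _ ≤ _ := card_le_card fun T hT => by
      rw [mem_powersetCard] at hT
      exact mem_filter.2 ⟨mem_powerset.2 hT.1, hT.2.le⟩

theorem base_small (E : ℕ) (hE : 1 ≤ E) : 1 + 1 / (E : ℝ) ≤ (2 : ℝ) ^ (2 / (E : ℝ)) := by
  have hE0 : (0 : ℝ) < E := by exact_mod_cast hE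
  have h1 : 1 + 1 / (E : ℝ) ≤ Real.exp (1 / (E : ℝ)) := by
    rw [add_comm]
    exact Real.add_one_le_exp _
  refine h1.trans ?_
  rw [Real.rpow_def_of_pos (by norm_num : (0 : ℝ) < 2), Real.exp_le_exp, div_le_iff₀ hE0]
  have h2 : Real.log 2 * (2 / (E : ℝ)) * E = 2 * Real.log 2 := by
    field_simp
  rw [h2]
  have := Real.log_two_gt_d9
  linarith

theorem exists_g (ε : ℝ) (hε : 0 < ε) : ∃ g : ℕ, 1 ≤ g ∧ (64 * (g : ℝ) + 68) / 2 ^ g ≤ ε := by
  have h := tendsto_pow_const_div_const_pow_of_one_lt 1 (by norm_num : (1 : ℝ) < 2)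
  have h2 := (h.eventually (gt_mem_nhds (by positivity : (0 : ℝ) < ε / 132))).and
    (eventually_ge_atTop 1)
  obtain ⟨g, hg, hg1⟩ := h2.exists
  refine ⟨g, hg1, ?_⟩
  have hg1' : (1 : ℝ) ≤ g := by exact_mod_cast hg1
  have h2g : (0 : ℝ) < 2 ^ g := by positivity
  rw [pow_one, div_lt_iff₀ h2g] at hg
  rw [div_le_iff₀ h2g]
  nlinarith

theorem exists_n (ε : ℝ) (hε : 0 < ε) : ∃ n₁ : ℕ, 1 ≤ n₁ ∧ ∀ n : ℕ, n₁ ≤ n →
    4 * ((n : ℝ) + 1) ≤ (2 : ℝ) ^ (ε * n) := by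
  have hr : (1 : ℝ) < (2 : ℝ) ^ ε := Real.one_lt_rpow (by norm_num) hε
  have h := tendsto_pow_const_div_const_pow_of_one_lt 1 hr
  have h2 := (h.eventually (gt_mem_nhds (by norm_num : (0 : ℝ) < 1 / 8))).and
    (eventually_ge_atTop 1)
  obtain ⟨n₁, hn₁⟩ := eventually_atTop.1 h2
  refine ⟨max n₁ 1, le_max_right _ _, fun n hn => ?_⟩
  obtain ⟨h3, h4⟩ := hn₁ n ((le_max_left _ _).trans hn)
  have h4' : (1 : ℝ) ≤ n := by exact_mod_cast h4
  have hp : (0 : ℝ) < ((2 : ℝ) ^ ε) ^ n := by positivity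
  rw [pow_one, div_lt_iff₀ hp] at h3
  rw [Real.rpow_mul (by norm_num), Real.rpow_natCast]
  linarith

theorem numeric (ε : ℝ) (hε : 0 < ε) : ∃ g : ℕ, 1 ≤ g ∧ ∃ n₁ : ℕ, 1 ≤ n₁ ∧ ∀ n : ℕ, n₁ ≤ n →
    ∃ b F : ℕ, 32 * n < 2 ^ g * (b + 1) ∧
      (∀ I : Finset ℕ, I.card ≤ n → (I.powerset.filter (fun T => T.card ≤ b)).card ≤ F) ∧
      ((4 * (F * (n + (n + b).choose n)) : ℕ) : ℝ) ≤ (2 : ℝ) ^ (ε * n) := by
  obtain ⟨g, hg1, hg⟩ := exists_g (ε / 2) (by positivity)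
  obtain ⟨n₁, hn₁1, hn₁⟩ := exists_n (ε / 2) (by positivity)
  refine ⟨g, hg1, n₁, hn₁1, fun n hn => ?_⟩
  set E : ℕ := 2 ^ g with hE
  have hE1 : 1 ≤ E := Nat.one_le_two_pow
  have hE0 : (0 : ℝ) < E := by exact_mod_cast hE1
  have hE1' : (1 : ℝ) ≤ E := by exact_mod_cast hE1
  set b : ℕ := 32 * n / E with hb
  have hbE : (b : ℝ) ≤ 32 * n / E := by
    rw [hb]
    refine Nat.cast_div_le.trans ?_
    push_cast
    exact le_rfl
  set A : ℝ := (E : ℝ) ^ b * (1 + 1 / (E : ℝ)) ^ n with hA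
  set A' : ℝ := (E : ℝ) ^ b * (1 + 1 / (E : ℝ)) ^ (n + b) with hA'
  have hq1 : (1 : ℝ) ≤ 1 + 1 / (E : ℝ) := by
    have : (0 : ℝ) ≤ 1 / (E : ℝ) := by positivity
    linarith
  have hA0 : 0 ≤ A := by positivity
  have hA'1 : 1 ≤ A' := by
    rw [hA']
    have h1 : (1 : ℝ) ≤ (E : ℝ) ^ b := one_le_pow₀ hE1'
    have h2 : (1 : ℝ) ≤ (1 + 1 / (E : ℝ)) ^ (n + b) := one_le_pow₀ hq1
    nlinarith
  refine ⟨b, ⌊A⌋₊, ?_, ?_, ?_⟩
  · rw [hb]
    have := Nat.lt_mul_div_succ (32 * n) (by omega : 0 < E)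
    exact this
  · intro I hI
    exact Nat.le_floor (count_small E b n hE1 I hI)
  · have hF : ((⌊A⌋₊ : ℕ) : ℝ) ≤ A := Nat.floor_le hA0
    have hC : (((n + b).choose n : ℕ) : ℝ) ≤ A' := by
      have h := choose_small E b (n + b) hE1
      rwa [← Nat.choose_symm_add] at h
    have hAA : A * A' = (2 : ℝ) ^ ((2 * g * b : ℕ) : ℝ) * (1 + 1 / (E : ℝ)) ^ (2 * n + b) := by
      rw [hA, hA', Real.rpow_natCast]
      have : (E : ℝ) = 2 ^ g := by rw [hE]; push_cast; rfl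
      calc (E : ℝ) ^ b * (1 + 1 / (E : ℝ)) ^ n * ((E : ℝ) ^ b * (1 + 1 / (E : ℝ)) ^ (n + b))
          = (E : ℝ) ^ (2 * b) * (1 + 1 / (E : ℝ)) ^ (2 * n + b) := by
            rw [two_mul b, pow_add, two_mul n, add_assoc, pow_add _ n (n + b)]; ring
        _ = (2 : ℝ) ^ (2 * g * b) * (1 + 1 / (E : ℝ)) ^ (2 * n + b) := by
            rw [show 2 * g * b = g * (2 * b) by ring, pow_mul (2 : ℝ) g (2 * b), ← this]
    have hq2 : (1 + 1 / (E : ℝ)) ^ (2 * n + b) ≤ (2 : ℝ) ^ (2 / (E : ℝ) * (2 * n + b : ℕ)) := by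
      rw [Real.rpow_mul (by norm_num), Real.rpow_natCast]
      exact pow_le_pow_left₀ (by positivity) (base_small E hE1) _
    have hexp : ((2 * g * b : ℕ) : ℝ) + 2 / (E : ℝ) * (2 * n + b : ℕ) ≤ ε / 2 * n := by
      push_cast
      have hE2 : (E : ℝ) = 2 ^ g := by rw [hE]; push_cast; rfl
      rw [← hE2] at hg
      have h1 : 2 * (g : ℝ) * b ≤ 64 * g / E * n := by
        calc 2 * (g : ℝ) * b ≤ 2 * g * (32 * n / E) := by gcongr
          _ = 64 * g / E * n := by ring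
      have h2 : 2 / (E : ℝ) * (2 * n + b) ≤ 68 / E * n := by
        have h3 : (b : ℝ) ≤ 32 * n := hbE.trans (div_le_self (by positivity) hE1')
        calc 2 / (E : ℝ) * (2 * n + b) ≤ 2 / (E : ℝ) * (2 * n + 32 * n) := by gcongr
          _ = 68 / E * n := by ring
      calc 2 * (g : ℝ) * b + 2 / (E : ℝ) * (2 * n + b) ≤ 64 * g / E * n + 68 / E * n :=
            add_le_add h1 h2
        _ = (64 * g + 68) / E * n := by ring
        _ ≤ ε / 2 * n := by gcongr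
    calc ((4 * (⌊A⌋₊ * (n + (n + b).choose n)) : ℕ) : ℝ)
        = 4 * ((⌊A⌋₊ : ℕ) * ((n : ℝ) + ((n + b).choose n : ℕ))) := by push_cast; ring
      _ ≤ 4 * (A * ((n : ℝ) + A')) := by gcongr
      _ ≤ 4 * (A * ((n : ℝ) * A' + A')) := by
          gcongr
          nlinarith [Nat.cast_nonneg (α := ℝ) n]
      _ = 4 * ((n : ℝ) + 1) * (A * A') := by ring
      _ ≤ (2 : ℝ) ^ (ε / 2 * n) * (2 : ℝ) ^ (ε / 2 * n) := by
          have h3 : A * A' ≤ (2 : ℝ) ^ (ε / 2 * n) := by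
            rw [hAA]
            calc (2 : ℝ) ^ ((2 * g * b : ℕ) : ℝ) * (1 + 1 / (E : ℝ)) ^ (2 * n + b)
                ≤ (2 : ℝ) ^ ((2 * g * b : ℕ) : ℝ) * (2 : ℝ) ^ (2 / (E : ℝ) * (2 * n + b : ℕ)) := by
                  gcongr
              _ = (2 : ℝ) ^ (((2 * g * b : ℕ) : ℝ) + 2 / (E : ℝ) * (2 * n + b : ℕ)) := by
                  rw [Real.rpow_add (by norm_num)]
              _ ≤ _ := Real.rpow_le_rpow_of_exponent_le (by norm_num) hexp
          have h4 := hn₁ n hn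
          have h5 : 0 ≤ A * A' := by positivity
          exact mul_le_mul h4 h3 h5 (by positivity)
      _ = (2 : ℝ) ^ (ε * n) := by
          rw [← Real.rpow_add (by norm_num)]
          congr 1
          ring

end Pool.Agent.H356U
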