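import Pool.Agent.H356U.Cons
import Pool.Agent.H356U.Blocks
import Pool.Agent.H356U.Num

/-!
# Two colours and towers of full height: all patterns of linear size
-/

set_option autoImplicit false

namespace Pool.Agent.H356U

open Finset Pool.Agent.Y424.LK Pool.Agent.TH138.NF

theorem contains_zero {κ : Type} (r : ℕ) (hr : 1 ≤ r) (c : Finset ℕ → κ) (P : ℕ → ℕ → κ) (N : ℕ) :
    Contains r c P 0 N := by
  refine ⟨fun _ => 0, fun i hi => absurd hi (Nat.not_lt_zero i),
    fun i j _ hj => absurd hj (Nat.not_lt_zero j), fun B hB hBc => ?_⟩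
  rw [range_zero, subset_empty] at hB
  rw [hB, card_empty] at hBc
  omega

/-- Part (B). -/
theorem partB (ε : ℝ) (hε : 0 < ε) : ∃ δ : ℝ, 0 < δ ∧ ∀ s : ℕ, ∃ n₀ : ℕ, ∀ n : ℕ, n₀ ≤ n →
    ∀ N : ℕ, tow (s + 1) (ε * n) ≤ N → ∀ c : Finset ℕ → Bool,
      (∀ Z ⊆ range N, Z.card = n → ¬ Homogeneous (s + 2) c Z) →
      ∀ (k : ℕ) (P : ℕ → ℕ → Bool), (k : ℝ) ≤ δ * n → Contains (s + 2) c P k N := by
  classical
  obtain ⟨g, hg1, n₁, hn₁, hnum⟩ := numeric (ε / 12) (by positivity)
  have hg1' : (1 : ℝ) ≤ g := by exact_mod_cast hg1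
  refine ⟨ε / (24 * g * (3 * g + 2)), by positivity, fun s => ?_⟩
  obtain ⟨n₂, hn₂⟩ := exists_nat_ge (3 * ((s : ℝ) + 2) ^ 2 / ε)
  obtain ⟨n₃, hn₃⟩ := exists_nat_ge (12 * (2 * (g : ℝ) + 1) / ε)
  refine ⟨max n₁ (max n₂ n₃), fun n hn N hN c hc k P hk => ?_⟩
  have h1 : n₁ ≤ n := (le_max_left _ _).trans hn
  have h2 : (3 * ((s : ℝ) + 2) ^ 2 / ε) ≤ n :=
    hn₂.trans (by exact_mod_cast ((le_max_left _ _).trans (le_max_right _ _)).trans hn)
  have h3 : (12 * (2 * (g : ℝ) + 1) / ε) ≤ n :=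
    hn₃.trans (by exact_mod_cast ((le_max_right _ _).trans (le_max_right _ _)).trans hn)
  have hn0 : (0 : ℝ) ≤ n := Nat.cast_nonneg n
  rw [div_le_iff₀ hε] at h2 h3
  rcases Nat.eq_zero_or_pos k with rfl | hk1
  · exact contains_zero (s + 2) (by omega) c P N
  obtain ⟨b, F, hb, hF, hm⟩ := hnum n h1
  set Y : ℕ := ⌊ε / 3 * n⌋₊ with hY
  have hY1 : (Y : ℝ) ≤ ε / 3 * n := Nat.floor_le (by positivity)
  have hY2 : ε / 3 * n < Y + 1 := Nat.lt_floor_add_one _
  set X₀ : ℕ := Y / 2 with hX₀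
  have hX1 : 2 * X₀ ≤ Y := Nat.mul_div_le Y 2
  have hX2 : Y ≤ 2 * X₀ + 1 := by omega
  have hX1' : 2 * (X₀ : ℝ) ≤ Y := by exact_mod_cast hX1
  have hX2' : (Y : ℝ) ≤ 2 * X₀ + 1 := by exact_mod_cast hX2
  -- the link
  have hNtw : twr (s + 1) (2 * Y + 1 * (s + 2) ^ 2) ≤ N := by
    have h4 : (twr (s + 1) (2 * Y + 1 * (s + 2) ^ 2) : ℝ) ≤ N := by
      rw [twr_cast]
      refine le_trans (tow_mono _ ?_) hN
      push_cast
      nlinarith
    exact_mod_cast h4
  obtain ⟨U, hU, S, hS, hUc, hSc, hlt, hL⟩ := linkQ Bool (2 ^ Y) s (range N) (by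
    rw [card_range, Fintype.card_bool]
    exact (NQ_le 2 1 le_rfl (by norm_num) Y s).trans hNtw) c
  by_cases hE : Emb (fun x y => c (insert x (insert y S))) P k U
  · exact contains_of_emb s c P k N U S hU hL hE
  exfalso
  have hsize : 2 * g * (1 + k * (3 * g + 2)) + X₀ ≤ Y := by
    have h5 : ((2 * g * (1 + k * (3 * g + 2)) + X₀ : ℕ) : ℝ) ≤ Y := by
      push_cast
      have h6 : 2 * (g : ℝ) * (k * (3 * g + 2)) ≤ ε / 12 * n := by
        calc 2 * (g : ℝ) * (k * (3 * g + 2))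
            ≤ 2 * (g : ℝ) * (ε / (24 * g * (3 * g + 2)) * n * (3 * g + 2)) := by gcongr
          _ = ε / 12 * n := by field_simp; ring
      have h7 : 2 * (g : ℝ) * (1 + k * (3 * g + 2)) = 2 * g + 2 * (g : ℝ) * (k * (3 * g + 2)) := by
        ring
      rw [h7]
      nlinarith
    exact_mod_cast h5
  have hm' : 4 * (F * (n + (n + b).choose n)) ≤ 2 ^ (g + X₀) := by
    have h5 : ((4 * (F * (n + (n + b).choose n)) : ℕ) : ℝ) ≤ ((2 ^ (g + X₀) : ℕ) : ℝ) := by
      refine hm.trans ?_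
      rw [Nat.cast_pow, ← Real.rpow_natCast]
      push_cast
      apply Real.rpow_le_rpow_of_exponent_le (by norm_num)
      nlinarith
    exact_mod_cast h5
  obtain ⟨H, hH, hHc, a, ha⟩ := graphB (fun x y => c (insert x (insert y S))) P k g n b F X₀ hk1
    (hn₁.trans h1) hb hF hm' U (by
      rw [hUc]
      exact Nat.pow_le_pow_right (by norm_num) hsize) hE
  have key : ∀ A ⊆ H, A.card = s + 2 → c A = a := by
    intro A hA hAc
    obtain ⟨x, hx, y, hy, hxy, hmin⟩ := two_min A (by omega)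
    rw [hL A (hA.trans hH) hAc x hx y hy hxy hmin]
    exact ha x (hA hx) y (hA hy) hxy
  refine hc H (hH.trans hU) hHc ?_
  intro A hA B hB hAc hBc
  rw [key A hA hAc, key B hB hBc]

/-- Part (C). -/
theorem partC {κ : Type} (s n N : ℕ) (c₀ : Finset ℕ → κ)
    (h0 : ∀ Z ⊆ range N, Z.card = n → ¬ Homogeneous (s + 2) c₀ Z) :
    ∃ c : Finset ℕ → κ, (∀ Z ⊆ range N, Z.card = n + 1 → ¬ Homogeneous (s + 3) c Z) ∧
      ∀ P : ℕ → ℕ → κ, P 0 2 ≠ P 1 2 → ¬ Contains (s + 3) c P (s + 4) N := by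
  classical
  set c : Finset ℕ → κ := fun A => if h : A.Nonempty then c₀ (A.erase (A.min' h)) else c₀ ∅ with hc
  have key : ∀ (x : ℕ) (A : Finset ℕ), (∀ y ∈ A, x < y) → c (insert x A) = c₀ A := by
    intro x A hx
    have hne : (insert x A).Nonempty := insert_nonempty x A
    have hxA : x ∉ A := fun h => lt_irrefl x (hx x h)
    have hmin : (insert x A).min' hne = x := by
      apply le_antisymm
      · exact min'_le _ _ (mem_insert_self x A)
      · apply le_min'
        intro y hy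
        rcases mem_insert.1 hy with rfl | hy
        · exact le_rfl
        · exact (hx y hy).le
    simp only [hc]
    rw [dif_pos hne, hmin, erase_insert hxA]
  refine ⟨c, ?_, ?_⟩
  · intro Z hZ hZc hhom
    have hne : Z.Nonempty := by rw [← card_pos]; omega
    set z := Z.min' hne with hz
    have hzlt : ∀ y ∈ Z.erase z, z < y := by
      intro y hy
      rw [mem_erase] at hy
      exact lt_of_le_of_ne (min'_le Z y hy.2) hy.1.symm
    refine h0 (Z.erase z) ((erase_subset _ _).trans hZ) ?_ ?_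
    · rw [card_erase_of_mem (min'_mem Z hne), hZc, Nat.add_sub_cancel]
    · intro A hA B hB hAc hBc
      have hzA : ∀ y ∈ A, z < y := fun y hy => hzlt y (hA hy)
      have hzB : ∀ y ∈ B, z < y := fun y hy => hzlt y (hB hy)
      rw [← key z A hzA, ← key z B hzB]
      refine hhom _ ?_ _ ?_ ?_ ?_
      · exact insert_subset (min'_mem Z hne) (hA.trans (erase_subset _ _))
      · exact insert_subset (min'_mem Z hne) (hB.trans (erase_subset _ _))
      · rw [card_insert_of_notMem (fun h => lt_irrefl z (hzA z h)), hAc]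
      · rw [card_insert_of_notMem (fun h => lt_irrefl z (hzB z h)), hBc]
  · rintro P hP ⟨v, -, hv2, hv3⟩
    apply hP
    set T := Icc 2 (s + 3) with hT
    have hTc : T.card = s + 2 := by rw [hT, Nat.card_Icc]; omega
    have hins : ∀ i, i < 2 → P i 2 = c₀ (T.image v) := by
      intro i hi
      have hiT : i ∉ T := by
        rw [hT, mem_Icc]
        omega
      have h1 := hv3 (insert i T) (by
        intro t ht
        rw [mem_range]
        rcases mem_insert.1 ht with rfl | ht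
        · omega
        · have := (mem_Icc.1 ht).2
          omega) (by rw [card_insert_of_notMem hiT, hTc]) i (mem_insert_self i T) 2
        (mem_insert_of_mem (by rw [hT, mem_Icc]; omega)) hi (by
          intro t ht
          rcases mem_insert.1 ht with h | h
          · exact Or.inl h
          · exact Or.inr (mem_Icc.1 h).1)
      rw [← h1, image_insert]
      apply key
      intro y hy
      obtain ⟨t, ht, rfl⟩ := mem_image.1 hy
      have := mem_Icc.1 ht
      exact hv2 i t (by omega) (by omega)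
    rw [hins 0 (by norm_num), hins 1 (by norm_num)]

end Pool.Agent.H356U
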