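import Pool.Agent.H356U.Cons
import Pool.Agent.TH138.NF.Main

/-!
# Four colours: the stepping-up colourings miss a pattern of bounded size
-/

set_option autoImplicit false

namespace Pool.Agent.H356U

open Finset Pool.Agent.TH138.NF

/-- a sequence alternating between the two colours which are not used for local extrema -/
def Alt (k : ℕ) (col : ℕ → Bool × Bool) : Prop :=
  (∀ n, n < k → col n = (true, false) ∨ col n = (false, true)) ∧
    ∀ n, n + 1 < k → col n ≠ col (n + 1)

/-- the colour of the sets formed by `v 0, …, v (k - 1)` only depends on the smallest element -/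
def First {r : ℕ} (P : Protocol (Bool × Bool) r) (M k : ℕ) : Prop :=
  ∃ (v : ℕ → ℕ) (col : ℕ → Bool × Bool), Alt k col ∧ (∀ i, i < k → v i < M) ∧
    (∀ i j, i < j → j < k → v i < v j) ∧
    ∀ idx : Fin (r + 1) → ℕ, StrictMono idx → (∀ l, idx l < k) → P.run (v ∘ idx) = col (idx 0)

/-- the colour of the sets formed by `v 0, …, v (k - 1)` only depends on the largest element -/
def Last {r : ℕ} (P : Protocol (Bool × Bool) r) (M k : ℕ) : Prop :=
  ∃ (v : ℕ → ℕ) (col : ℕ → Bool × Bool), Alt k col ∧ (∀ i, i < k → v i < M) ∧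
    (∀ i j, i < j → j < k → v i < v j) ∧
    ∀ idx : Fin (r + 1) → ℕ, StrictMono idx → (∀ l, idx l < k) →
      P.run (v ∘ idx) = col (idx (Fin.last r))

theorem Alt.mono {k k' : ℕ} {col : ℕ → Bool × Bool} (h : k' ≤ k) (ha : Alt k col) : Alt k' col :=
  ⟨fun n hn => ha.1 n (by omega), fun n hn => ha.2 n (by omega)⟩

theorem Last.mono {r : ℕ} {P : Protocol (Bool × Bool) r} {M k k' : ℕ} (h : k' ≤ k)
    (hl : Last P M k) : Last P M k' := by
  obtain ⟨v, col, h1, h2, h3, h4⟩ := hl
  exact ⟨v, col, h1.mono h, fun i hi => h2 i (by omega), fun i j hij hj => h3 i j hij (by omega),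
    fun idx hm hidx => h4 idx hm fun l => (hidx l).trans_le h⟩

theorem Alt.sign {k : ℕ} {col : ℕ → Bool × Bool} (h : Alt k col) (i : ℕ) (hi : i + 2 < k) :
    ∃ c, (c = i ∨ c = i + 1) ∧ (col c).2 = true ∧ (col (c + 1)).2 = false := by
  have h0 := h.1 i (by omega)
  have h1 := h.1 (i + 1) (by omega)
  have h2 := h.1 (i + 2) (by omega)
  have h3 := h.2 i (by omega)
  have h4 := h.2 (i + 1) (by omega)
  rcases h0 with h0 | h0 <;> rcases h1 with h1 | h1 <;> rcases h2 with h2 | h2
  · exact absurd (h0.trans h1.symm) h3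
  · exact absurd (h0.trans h1.symm) h3
  · exact ⟨i + 1, Or.inr rfl, by rw [h1], by rw [show i + 1 + 1 = i + 2 by ring, h2]⟩
  · exact absurd (h1.trans h2.symm) h4
  · exact absurd (h1.trans h2.symm) h4
  · exact ⟨i, Or.inl rfl, by rw [h0], by rw [h1]⟩
  · exact absurd (h0.trans h1.symm) h3
  · exact absurd (h0.trans h1.symm) h3

theorem mono3 {a b c : ℕ} (h1 : a < b) (h2 : b < c) : StrictMono ![a, b, c] := by
  rw [Fin.strictMono_iff_lt_succ]
  intro i
  fin_cases i
  · simpa using h1
  · simpa using h2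

theorem sign3 (χ : ℕ → ℕ → Bool) (j k : ℕ) (v : ℕ → ℕ) (hv : ∀ i, i < k → v i < 2 ^ 2 ^ j)
    (hm : ∀ i j, i < j → j < k → v i < v j) (a b c : ℕ) (hab : a < b) (hbc : b < c) (hc : c < k) :
    ((base χ j).run (v ∘ ![a, b, c])).2 = decide (hd (v a) (v b) < hd (v b) (v c)) := by
  have h1 : StrictMono (v ∘ ![a, b, c]) := by
    rw [Fin.strictMono_iff_lt_succ]
    intro i
    fin_cases i
    · simpa using hm a b hab (hbc.trans hc)
    · simpa using hm b c hbc hc
  rw [run_base χ j _ h1]
  · rfl
  · intro i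
    fin_cases i
    · simpa using hv a (by omega)
    · simpa using hv b (by omega)
    · simpa using hv c (by omega)

theorem base_last (χ : ℕ → ℕ → Bool) (j : ℕ) : ¬ Last (base χ j) (2 ^ 2 ^ j) 5 := by
  rintro ⟨v, col, hA, h2, h3, h4⟩
  obtain ⟨c, hc, hc1, hc2⟩ := hA.sign 2 (by norm_num)
  have key : ∀ c, 1 < c → c < 5 → (col c).2 = decide (hd (v 0) (v 1) < hd (v 1) (v c)) := by
    intro c hc1 hc5
    rw [← sign3 χ j 5 v h2 h3 0 1 c (by norm_num) hc1 hc5]
    have := h4 ![0, 1, c] (mono3 (by norm_num) hc1) (by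
      intro l
      fin_cases l
      · simp
      · simp
      · simpa using hc5)
    rw [this]
    rfl
  have e1 := key c (by omega) (by omega)
  have e2 := key (c + 1) (by omega) (by omega)
  rw [hc1] at e1
  rw [hc2] at e2
  have e1' := of_decide_eq_true e1.symm
  have e2' := of_decide_eq_false e2.symm
  have e3 := hd_max (h3 1 c (by omega) (by omega)) (h3 c (c + 1) (by omega) (by omega))
  omega

theorem base_first (χ : ℕ → ℕ → Bool) (j : ℕ) : ¬ First (base χ j) (2 ^ 2 ^ j) 5 := by
  rintro ⟨v, col, hA, h2, h3, h4⟩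
  obtain ⟨i, hi, hi1, hi2⟩ := hA.sign 0 (by norm_num)
  have key : ∀ a b c, a < b → b < c → c < 5 →
      (col a).2 = decide (hd (v a) (v b) < hd (v b) (v c)) := by
    intro a b c hab hbc hc5
    rw [← sign3 χ j 5 v h2 h3 a b c hab hbc hc5]
    have := h4 ![a, b, c] (mono3 hab hbc) (by
      intro l
      fin_cases l
      · simpa using (hab.trans hbc).trans hc5
      · simpa using hbc.trans hc5
      · simpa using hc5)
    rw [this]
    rfl
  have e1 := key i (i + 2) (i + 3) (by omega) (by omega) (by omega)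
  have e2 := key (i + 1) (i + 2) (i + 3) (by omega) (by omega) (by omega)
  rw [hi1] at e1
  rw [hi2] at e2
  have e1' := of_decide_eq_true e1.symm
  have e2' := of_decide_eq_false e2.symm
  have e3 := hd_max (h3 i (i + 1) (by omega) (by omega)) (h3 (i + 1) (i + 2) (by omega) (by omega))
  omega

theorem dichotomy (e : ℕ → ℕ) : ∀ m : ℕ, (∀ i, i + 2 ≤ m →
    (e i < e (i + 1) ∧ e (i + 1) < e (i + 2)) ∨ (e (i + 1) < e i ∧ e (i + 2) < e (i + 1))) →
    (m = 1 → e 0 ≠ e 1) →
    (∀ i, i < m → e i < e (i + 1)) ∨ (∀ i, i < m → e (i + 1) < e i) := by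
  intro m
  induction m with
  | zero => intro _ _; exact Or.inl fun i hi => absurd hi (Nat.not_lt_zero i)
  | succ m ih =>
    intro h h1
    rcases Nat.eq_zero_or_pos m with rfl | hm
    · rcases lt_or_gt_of_ne (h1 rfl) with g | g
      · left
        intro i hi
        have : i = 0 := by omega
        rw [this]; exact g
      · right
        intro i hi
        have : i = 0 := by omega
        rw [this]; exact g
    · have hlast := h (m - 1) (by omega)
      rw [show m - 1 + 1 = m by omega, show m - 1 + 2 = m + 1 by omega] at hlast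
      have h01 : m = 1 → e 0 ≠ e 1 := by
        intro hm1
        have := h 0 (by omega)
        rw [zero_add] at this
        omega
      rcases ih (fun i hi => h i (by omega)) h01 with g | g
      · left
        intro i hi
        rcases Nat.lt_or_ge i m with hi' | hi'
        · exact g i hi'
        · have him : i = m := by omega
          have g' := g (m - 1) (by omega)
          rw [show m - 1 + 1 = m by omega] at g'
          rw [him]
          omega
      · right
        intro i hi
        rcases Nat.lt_or_ge i m with hi' | hi'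
        · exact g i hi'
        · have him : i = m := by omega
          have g' := g (m - 1) (by omega)
          rw [show m - 1 + 1 = m by omega] at g'
          rw [him]
          omega

/-- the digits are monotone, apart from the last ones -/
theorem stretch {t : ℕ} (P : Protocol (Bool × Bool) (t + 2)) (k K : ℕ) (hK : k = K + t + 1)
    (hK2 : 2 ≤ K) (v : ℕ → ℕ) (hm : ∀ i j, i < j → j < k → v i < v j)
    (hP : ∀ idx : Fin (t + 4) → ℕ, StrictMono idx → (∀ l, idx l < k) →
      P.step.run (v ∘ idx) ≠ (true, true) ∧ P.step.run (v ∘ idx) ≠ (false, false)) :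
    (∀ i, i + 1 < K → hd (v i) (v (i + 1)) < hd (v (i + 1)) (v (i + 2))) ∨
      (∀ i, i + 1 < K → hd (v (i + 1)) (v (i + 2)) < hd (v i) (v (i + 1))) := by
  have h := dichotomy (fun i => hd (v i) (v (i + 1))) (K - 1) (by
    intro i hi
    have hw : StrictMono (fun l : Fin (t + 4) => i + l.val) := by
      intro a b hab
      have := Fin.lt_def.1 hab
      simp only
      omega
    have hwv : StrictMono (v ∘ fun l : Fin (t + 4) => i + l.val) := by
      intro a b hab
      refine hm _ _ (hw hab) ?_
      show i + b.val < k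
      omega
    obtain ⟨h1, h2⟩ := hP _ hw (fun l => by omega)
    have n1 := hd_ne (hm i (i + 1) (by omega) (by omega)) (hm (i + 1) (i + 2) (by omega) (by omega))
    have n2 := hd_ne (hm (i + 1) (i + 2) (by omega) (by omega))
      (hm (i + 2) (i + 3) (by omega) (by omega))
    have g1 : ¬ (hd (v (i + 1)) (v (i + 2)) < hd (v i) (v (i + 1)) ∧
        hd (v (i + 1)) (v (i + 2)) < hd (v (i + 2)) (v (i + 3))) := fun hh =>
      h1 (run_min P _ hh.1 hh.2)
    have g2 : ¬ (hd (v i) (v (i + 1)) < hd (v (i + 1)) (v (i + 2)) ∧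
        hd (v (i + 2)) (v (i + 3)) < hd (v (i + 1)) (v (i + 2))) := fun hh =>
      h2 (run_max P _ hh.1 hh.2)
    show (hd (v i) (v (i + 1)) < hd (v (i + 1)) (v (i + 1 + 1)) ∧
      hd (v (i + 1)) (v (i + 1 + 1)) < hd (v (i + 2)) (v (i + 2 + 1))) ∨
      (hd (v (i + 1)) (v (i + 1 + 1)) < hd (v i) (v (i + 1)) ∧
      hd (v (i + 2)) (v (i + 2 + 1)) < hd (v (i + 1)) (v (i + 1 + 1)))
    rw [show i + 1 + 1 = i + 2 by ring, show i + 2 + 1 = i + 3 by ring]
    omega) (fun _ => hd_ne (hm 0 1 (by omega) (by omega)) (hm 1 2 (by omega) (by omega)))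
  rcases h with h | h
  · exact Or.inl fun i hi => h i (by omega)
  · exact Or.inr fun i hi => h i (by omega)

theorem step_run_inc {t : ℕ} (P : Protocol (Bool × Bool) (t + 2)) (K : ℕ) (v : ℕ → ℕ)
    (hm : ∀ i j, i < j → j ≤ K → v i < v j)
    (he : ∀ i, i + 1 < K → hd (v i) (v (i + 1)) < hd (v (i + 1)) (v (i + 2)))
    (idx : Fin (t + 4) → ℕ) (hi : StrictMono idx) (hK : ∀ l, idx l ≤ K) :
    P.step.run (v ∘ idx) = P.run (fun l => hd (v (idx l.succ - 1)) (v (idx l.succ - 1 + 1))) := by
  have hD : D (v ∘ idx) = fun l => hd (v (idx l.succ - 1)) (v (idx l.succ - 1 + 1)) := by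
    funext l
    have h1 : idx l.castSucc < idx l.succ := hi (Fin.castSucc_lt_succ)
    have h2 := (hd_inc v K (fun i hi => hm i (i + 1) (by omega) (by omega)) he (idx l.castSucc)
      (idx l.succ) h1 (hK _)).2
    show hd (v (idx l.castSucc)) (v (idx l.succ)) = _
    rw [h2, show idx l.succ - 1 + 1 = idx l.succ by omega]
  have hmon : StrictMono (D (v ∘ idx)) := by
    rw [hD]
    intro a b hab
    have h1 : idx a.succ < idx b.succ := hi (by simpa using hab)
    have h2 : idx a.castSucc < idx a.succ := hi (Fin.castSucc_lt_succ)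
    have h3 := hK b.succ
    exact e_mono (fun i => hd (v i) (v (i + 1))) K he _ _ (by omega) (by omega)
  rw [run_inc P (v ∘ idx) (fun a b hab => hm _ _ (hi hab) (hK b)) hmon, hD]

theorem step_run_dec {t : ℕ} (P : Protocol (Bool × Bool) (t + 2)) (K : ℕ) (v : ℕ → ℕ)
    (hm : ∀ i j, i < j → j ≤ K → v i < v j)
    (he : ∀ i, i + 1 < K → hd (v (i + 1)) (v (i + 2)) < hd (v i) (v (i + 1)))
    (idx : Fin (t + 4) → ℕ) (hi : StrictMono idx) (hK : ∀ l, idx l ≤ K) :
    P.step.run (v ∘ idx) =
      P.run (fun l => hd (v (idx l.rev.castSucc)) (v (idx l.rev.castSucc + 1))) := by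
  have hD : D (v ∘ idx) = fun l => hd (v (idx l.castSucc)) (v (idx l.castSucc + 1)) := by
    funext l
    have h1 : idx l.castSucc < idx l.succ := hi (Fin.castSucc_lt_succ)
    exact (hd_dec v K (fun i hi => hm i (i + 1) (by omega) (by omega)) he (idx l.castSucc)
      (idx l.succ) h1 (hK _)).2.1
  have hanti : StrictAnti (D (v ∘ idx)) := by
    rw [hD]
    intro a b hab
    have h1 : idx a.castSucc < idx b.castSucc := hi (by simpa using hab)
    have h2 : idx b.castSucc < idx b.succ := hi (Fin.castSucc_lt_succ)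
    have h3 := hK b.succ
    exact e_anti (fun i => hd (v i) (v (i + 1))) K he _ _ (by omega) (by omega)
  rw [run_dec P (v ∘ idx) (fun a b hab => hm _ _ (hi hab) (hK b)) hanti, hD]

theorem Alt.ne {k : ℕ} {col : ℕ → Bool × Bool} (h : Alt k col) {n : ℕ} (hn : n < k) :
    col n ≠ (true, true) ∧ col n ≠ (false, false) := by
  rcases h.1 n hn with e | e <;> rw [e] <;> simp

theorem step_first {t : ℕ} (P : Protocol (Bool × Bool) (t + 2)) (M k K : ℕ) (hK : k = K + t + 1)
    (hK2 : t + 4 ≤ K) (h : First P.step (2 ^ M) k) : Last P M K := by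
  obtain ⟨v, col, hA, hb, hm, hrun⟩ := h
  rcases stretch P k K hK (by omega) v hm (fun idx hi hl => by
    rw [hrun idx hi hl]
    exact hA.ne (hl 0)) with he | he
  · exfalso
    have hm' : ∀ i j, i < j → j ≤ K → v i < v j := fun i j hij hj => hm i j hij (by omega)
    set i1 : Fin (t + 4) → ℕ := Fin.cons 0 (fun l : Fin (t + 3) => l.val + 2) with hi1
    set i2 : Fin (t + 4) → ℕ := Fin.cons 1 (fun l : Fin (t + 3) => l.val + 2) with hi2
    have s1 : StrictMono i1 := by
      rw [Fin.strictMono_iff_lt_succ]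
      intro l
      refine Fin.cases ?_ (fun l => ?_) l
      · rw [hi1]
        simp
      · rw [hi1, Fin.castSucc_succ, Fin.cons_succ, Fin.cons_succ]
        simp
    have s2 : StrictMono i2 := by
      rw [Fin.strictMono_iff_lt_succ]
      intro l
      refine Fin.cases ?_ (fun l => ?_) l
      · rw [hi2]
        simp
      · rw [hi2, Fin.castSucc_succ, Fin.cons_succ, Fin.cons_succ]
        simp
    have b1 : ∀ l, i1 l ≤ K := by
      intro l
      refine Fin.cases ?_ (fun l => ?_) l
      · rw [hi1, Fin.cons_zero]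
        omega
      · rw [hi1, Fin.cons_succ]
        omega
    have b2 : ∀ l, i2 l ≤ K := by
      intro l
      refine Fin.cases ?_ (fun l => ?_) l
      · rw [hi2, Fin.cons_zero]
        omega
      · rw [hi2, Fin.cons_succ]
        omega
    have r1 := step_run_inc P K v hm' he i1 s1 b1
    have r2 := step_run_inc P K v hm' he i2 s2 b2
    have r3 : (fun l : Fin (t + 3) => hd (v (i1 l.succ - 1)) (v (i1 l.succ - 1 + 1))) =
        fun l => hd (v (i2 l.succ - 1)) (v (i2 l.succ - 1 + 1)) := by
      funext l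
      rw [hi1, hi2, Fin.cons_succ, Fin.cons_succ]
    rw [r3, ← r2, hrun i1 s1 (fun l => by have := b1 l; omega),
      hrun i2 s2 (fun l => by have := b2 l; omega)] at r1
    refine hA.2 0 (by omega) ?_
    rw [hi1, hi2, Fin.cons_zero, Fin.cons_zero] at r1
    simpa using r1
  · have hm' : ∀ i j, i < j → j ≤ K → v i < v j := fun i j hij hj => hm i j hij (by omega)
    refine ⟨fun n => hd (v (K - 1 - n)) (v (K - 1 - n + 1)), fun n => col (K - 1 - n),
      ⟨fun n hn => hA.1 _ (by omega), fun n hn => ?_⟩, ?_, ?_, ?_⟩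
    · have := hA.2 (K - 1 - (n + 1)) (by omega)
      rw [show K - 1 - (n + 1) + 1 = K - 1 - n by omega] at this
      exact this.symm
    · intro i hi
      exact hd_lt (hm _ _ (by omega) (by omega)) (hb _ (by omega))
    · intro i j hij hj
      exact e_anti (fun i => hd (v i) (v (i + 1))) K he _ _ (by omega) (by omega)
    · intro idx hidx hlt
      set i1 : Fin (t + 4) → ℕ := Fin.snoc (fun l : Fin (t + 3) => K - 1 - idx l.rev) K with hi1
      have s1 : StrictMono i1 := by
        rw [Fin.strictMono_iff_lt_succ]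
        intro l
        refine Fin.lastCases ?_ (fun l => ?_) l
        · rw [hi1, Fin.snoc_castSucc, Fin.succ_last, Fin.snoc_last]
          have := hlt (Fin.last (t + 2)).rev
          omega
        · rw [hi1, Fin.snoc_castSucc, ← Fin.castSucc_succ, Fin.snoc_castSucc]
          have h1 : idx l.succ.rev < idx l.castSucc.rev := hidx (by
            rw [Fin.rev_lt_rev]
            exact Fin.castSucc_lt_succ)
          have h2 := hlt l.castSucc.rev
          omega
      have b1 : ∀ l, i1 l ≤ K := by
        intro l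
        refine Fin.lastCases ?_ (fun l => ?_) l
        · rw [hi1, Fin.snoc_last]
        · rw [hi1, Fin.snoc_castSucc]
          omega
      have r1 := step_run_dec P K v hm' he i1 s1 b1
      have r3 : (fun l : Fin (t + 3) =>
          hd (v (i1 l.rev.castSucc)) (v (i1 l.rev.castSucc + 1))) =
          (fun n => hd (v (K - 1 - n)) (v (K - 1 - n + 1))) ∘ idx := by
        funext l
        rw [hi1, Fin.snoc_castSucc, Fin.rev_rev]
        rfl
      rw [r3, hrun i1 s1 (fun l => by have := b1 l; omega)] at r1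
      rw [← r1, hi1]
      have : (0 : Fin (t + 4)) = (0 : Fin (t + 3)).castSucc := rfl
      rw [this, Fin.snoc_castSucc, Fin.rev_zero]

theorem step_last {t : ℕ} (P : Protocol (Bool × Bool) (t + 2)) (M k K : ℕ) (hK : k = K + t + 1)
    (hK2 : t + 4 ≤ K) (h : Last P.step (2 ^ M) k) : Last P M K := by
  obtain ⟨v, col, hA, hb, hm, hrun⟩ := h
  have hm' : ∀ i j, i < j → j ≤ K → v i < v j := fun i j hij hj => hm i j hij (by omega)
  rcases stretch P k K hK (by omega) v hm (fun idx hi hl => by
    rw [hrun idx hi hl]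
    exact hA.ne (hl _)) with he | he
  · refine ⟨fun n => hd (v n) (v (n + 1)), fun n => col (n + 1),
      ⟨fun n hn => hA.1 _ (by omega), fun n hn => hA.2 _ (by omega)⟩, ?_, ?_, ?_⟩
    · intro i hi
      exact hd_lt (hm _ _ (by omega) (by omega)) (hb _ (by omega))
    · intro i j hij hj
      exact e_mono (fun i => hd (v i) (v (i + 1))) K he _ _ (by omega) (by omega)
    · intro idx hidx hlt
      set i1 : Fin (t + 4) → ℕ := Fin.cons 0 (fun l : Fin (t + 3) => idx l + 1) with hi1
      have s1 : StrictMono i1 := by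
        rw [Fin.strictMono_iff_lt_succ]
        intro l
        refine Fin.cases ?_ (fun l => ?_) l
        · rw [hi1, Fin.castSucc_zero, Fin.cons_zero, Fin.cons_succ]
          omega
        · rw [hi1, Fin.castSucc_succ, Fin.cons_succ, Fin.cons_succ]
          have := hidx (Fin.castSucc_lt_succ (i := l))
          omega
      have b1 : ∀ l, i1 l ≤ K := by
        intro l
        refine Fin.cases ?_ (fun l => ?_) l
        · rw [hi1, Fin.cons_zero]
          omega
        · rw [hi1, Fin.cons_succ]
          exact hlt l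
      have r1 := step_run_inc P K v hm' he i1 s1 b1
      have r3 : (fun l : Fin (t + 3) => hd (v (i1 l.succ - 1)) (v (i1 l.succ - 1 + 1))) =
          (fun n => hd (v n) (v (n + 1))) ∘ idx := by
        funext l
        rw [hi1, Fin.cons_succ]
        rfl
      rw [r3, hrun i1 s1 (fun l => by have := b1 l; omega)] at r1
      rw [← r1, hi1, ← Fin.succ_last, Fin.cons_succ]
  · exfalso
    set i1 : Fin (t + 4) → ℕ := Fin.snoc (fun l : Fin (t + 3) => l.val) (t + 3) with hi1
    set i2 : Fin (t + 4) → ℕ := Fin.snoc (fun l : Fin (t + 3) => l.val) (t + 4) with hi2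
    have s1 : StrictMono i1 := by
      rw [Fin.strictMono_iff_lt_succ]
      intro l
      refine Fin.lastCases ?_ (fun l => ?_) l
      · rw [hi1, Fin.snoc_castSucc, Fin.succ_last, Fin.snoc_last]
        simp
      · rw [hi1, Fin.snoc_castSucc, ← Fin.castSucc_succ, Fin.snoc_castSucc]
        simp
    have s2 : StrictMono i2 := by
      rw [Fin.strictMono_iff_lt_succ]
      intro l
      refine Fin.lastCases ?_ (fun l => ?_) l
      · rw [hi2, Fin.snoc_castSucc, Fin.succ_last, Fin.snoc_last]
        simp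
      · rw [hi2, Fin.snoc_castSucc, ← Fin.castSucc_succ, Fin.snoc_castSucc]
        simp
    have b1 : ∀ l, i1 l ≤ K := by
      intro l
      refine Fin.lastCases ?_ (fun l => ?_) l
      · rw [hi1, Fin.snoc_last]
        omega
      · rw [hi1, Fin.snoc_castSucc]
        omega
    have b2 : ∀ l, i2 l ≤ K := by
      intro l
      refine Fin.lastCases ?_ (fun l => ?_) l
      · rw [hi2, Fin.snoc_last]
        omega
      · rw [hi2, Fin.snoc_castSucc]
        omega
    have r1 := step_run_dec P K v hm' he i1 s1 b1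
    have r2 := step_run_dec P K v hm' he i2 s2 b2
    have r3 : (fun l : Fin (t + 3) => hd (v (i1 l.rev.castSucc)) (v (i1 l.rev.castSucc + 1))) =
        fun l => hd (v (i2 l.rev.castSucc)) (v (i2 l.rev.castSucc + 1)) := by
      funext l
      rw [hi1, hi2, Fin.snoc_castSucc, Fin.snoc_castSucc]
    rw [r3, ← r2, hrun i1 s1 (fun l => by have := b1 l; omega),
      hrun i2 s2 (fun l => by have := b2 l; omega)] at r1
    refine hA.2 (t + 3) (by omega) ?_
    rw [hi1, hi2, Fin.snoc_last, Fin.snoc_last] at r1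
    exact r1

/-- colourings with towers of full height which are not monochromatic in this weak sense -/
theorem family (j : ℕ) : ∀ s : ℕ, ∃ P : Protocol (Bool × Bool) (s + 2),
    (∃ n, 2 ≤ n ∧ n ≤ 2 ^ s * (4 * j + s + 5) ∧
      ∀ S ⊆ range (Mn j s), S.card = n → ¬ Hom P S) ∧
    ¬ Last P (Mn j s) ((s + 2) ^ 2 + 1) ∧ ¬ First P (Mn j s) ((s + 2) ^ 2 + 1) := by
  intro s
  induction s with
  | zero =>
    obtain ⟨χ, hχ⟩ := base_lower j
    exact ⟨base χ j, ⟨4 * j + 5, by omega, by omega, hχ⟩, base_last χ j, base_first χ j⟩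
  | succ s ih =>
    obtain ⟨P, ⟨n, hn2, hn, hP⟩, hlast, hfirst⟩ := ih
    have hk : (s + 1 + 2) ^ 2 + 1 = (s ^ 2 + 5 * s + 9) + s + 1 := by ring
    have hK : (s + 2) ^ 2 + 1 ≤ s ^ 2 + 5 * s + 9 := by nlinarith
    have hK4 : s + 4 ≤ s ^ 2 + 5 * s + 9 := by nlinarith [Nat.zero_le (s ^ 2)]
    refine ⟨P.step, ⟨2 * n + s, by omega, ?_, step_lower P (Mn j s) n hn2 hP⟩, ?_, ?_⟩
    · have h1 : s ≤ 2 ^ s := Nat.lt_two_pow_self.le
      calc 2 * n + s ≤ 2 * (2 ^ s * (4 * j + s + 5)) + 2 ^ s := by omega
        _ ≤ 2 ^ (s + 1) * (4 * j + (s + 1) + 5) := by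
          rw [pow_succ]
          nlinarith
    · intro h
      exact hlast ((step_last P (Mn j s) _ _ hk hK4 h).mono hK)
    · intro h
      exact hlast ((step_first P (Mn j s) _ _ hk hK4 h).mono hK)

/-- the pattern: the colour of a set only depends on the parity of its smallest element -/
def parityPattern (i _j : ℕ) : Bool × Bool := if Even i then (true, false) else (false, true)

theorem first_of_contains {r : ℕ} (P : Protocol (Bool × Bool) (r + 1)) (c : Finset ℕ → Bool × Bool)
    (N k : ℕ) (hc : Computes P N c) (h : Contains (r + 2) c parityPattern k N) : First P N k := by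
  obtain ⟨v, h1, h2, h3⟩ := h
  refine ⟨v, fun n => parityPattern n 0, ⟨?_, ?_⟩, h1, h2, ?_⟩
  · intro n _
    simp only [parityPattern]
    by_cases he : Even n
    · rw [if_pos he]
      exact Or.inl rfl
    · rw [if_neg he]
      exact Or.inr rfl
  · intro n _
    simp only [parityPattern]
    by_cases he : Even n
    · rw [if_pos he, if_neg (by rw [Nat.even_add_one]; exact fun h => h he)]
      simp
    · rw [if_neg he, if_pos (by rw [Nat.even_add_one]; exact he)]
      simp
  · intro idx hidx hlt
    have hsm : StrictMono (v ∘ idx) := fun a b hab => h2 _ _ (hidx hab) (hlt b)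
    rw [hc (v ∘ idx) hsm (fun i => h1 _ (hlt i))]
    have h01 : idx 0 < idx 1 := hidx (by simp)
    have hB := h3 (univ.image idx) (by
      intro x hx
      obtain ⟨i, -, rfl⟩ := mem_image.1 hx
      exact mem_range.2 (hlt i)) (by
        rw [card_image_of_injective _ hidx.injective, card_univ, Fintype.card_fin]) (idx 0)
      (mem_image_of_mem _ (mem_univ _)) (idx 1) (mem_image_of_mem _ (mem_univ _)) h01 (by
        intro t ht
        obtain ⟨i, -, rfl⟩ := mem_image.1 ht
        rcases Fin.eq_zero_or_eq_succ i with rfl | ⟨i', rfl⟩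
        · exact Or.inl rfl
        · right
          apply hidx.monotone
          rw [Fin.le_def]
          simp)
    rw [← image_image]
    exact hB

/-- Part (D). -/
theorem partD (s j : ℕ) : ∃ (N : ℕ) (c : Finset ℕ → Bool × Bool), (N : ℝ) = tow (s + 2) j ∧
    (∀ Z ⊆ range N, Z.card = 2 ^ s * (4 * j + s + 5) → ¬ Homogeneous (s + 3) c Z) ∧
    ¬ Contains (s + 3) c parityPattern ((s + 2) ^ 2 + 1) N := by
  obtain ⟨P, ⟨n, -, hn, hP⟩, -, hfirst⟩ := family j s
  refine ⟨Mn j s, colour P (false, false), Mn_tow j s, ?_, ?_⟩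
  · intro S hS hc hh
    obtain ⟨T, hT, hTc⟩ := exists_subset_card_eq (s := S) (n := n) (by omega)
    refine hP T (hT.trans hS) hTc (hom_of_homogeneous
      (computes_colour P (false, false) (Mn j s)) (hT.trans hS) ?_)
    intro A hA B hB
    exact hh A (hA.trans hT) B (hB.trans hT)
  · intro h
    exact hfirst (first_of_contains P _ _ _ (computes_colour P (false, false) (Mn j s)) h)

end Pool.Agent.H356U
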