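import Pool.Agent.H356U.Greedy

/-!
# Many blocks, any two of which nearly miss one colour
-/

set_option autoImplicit false

namespace Pool.Agent.H356U

open Finset

variable {κ : Type}

/-- `X` is to the left of `Y` and the colour `a` has density at most `1 / D` between them -/
def Good [DecidableEq κ] (f : ℕ → ℕ → κ) (D : ℕ) (a : κ) (X Y : Finset ℕ) : Prop :=
  (∀ x ∈ X, ∀ y ∈ Y, x < y) ∧
    D * ((X ×ˢ Y).filter (fun p => f p.1 p.2 = a)).card ≤ X.card * Y.card

/-- a list of blocks of size `x` in `U` which pairwise nearly miss the colour `a` -/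
def Fam [DecidableEq κ] (f : ℕ → ℕ → κ) (D x : ℕ) (a : κ) (U : Finset ℕ)
    (L : List (Finset ℕ)) : Prop :=
  (∀ X ∈ L, X ⊆ U ∧ X.card = x) ∧ L.Pairwise (Good f D a)

theorem Fam.mono [DecidableEq κ] {f : ℕ → ℕ → κ} {D x : ℕ} {a : κ} {U W : Finset ℕ}
    {L : List (Finset ℕ)} (h : U ⊆ W) (hL : Fam f D x a U L) : Fam f D x a W L :=
  ⟨fun X hX => ⟨(hL.1 X hX).1.trans h, (hL.1 X hX).2⟩, hL.2⟩

theorem card_prod_left [DecidableEq κ] (f : ℕ → ℕ → κ) (a : κ) (X Y : Finset ℕ) :
    ((X ×ˢ Y).filter (fun p => f p.1 p.2 = a)).card =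
      ∑ x ∈ X, (Y.filter (fun y => f x y = a)).card := by
  rw [card_filter, sum_product]
  refine sum_congr rfl fun x _ => ?_
  rw [card_filter]

theorem card_prod_right [DecidableEq κ] (f : ℕ → ℕ → κ) (a : κ) (X Y : Finset ℕ) :
    ((X ×ˢ Y).filter (fun p => f p.1 p.2 = a)).card =
      ∑ y ∈ Y, (X.filter (fun x => f x y = a)).card := by
  rw [card_filter, sum_product_right]
  refine sum_congr rfl fun y _ => ?_
  rw [card_filter]

/-- the vertices of `B` with many neighbours of colour `a` in one of the blocks can be removed -/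
theorem prune [DecidableEq κ] (f : ℕ → ℕ → κ) (Q D x m : ℕ) (hD : 1 ≤ D) (hx : 1 ≤ x)
    (hQ : 2 * m * D ≤ Q) (hm : 1 ≤ m) (a : κ) (A B : Finset ℕ)
    (h : ∀ u ∈ A, Q * (B.filter (fun y => f u y = a)).card < B.card)
    (L : List (Finset ℕ)) (hL : ∀ X ∈ L, X ⊆ A ∧ X.card = x) (hLm : L.length ≤ m) :
    B.card ≤ 2 * (B.filter (fun y => ∀ X ∈ L,
      D * (X.filter (fun u => f u y = a)).card ≤ X.card)).card := by
  classical
  set bad : Finset ℕ → Finset ℕ := fun X =>
    B.filter (fun y => X.card < D * (X.filter (fun u => f u y = a)).card) with hbad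
  have hQ0 : 0 < Q := by
    have : 1 ≤ 2 * m * D := by
      calc 1 ≤ 2 * 1 * 1 := by norm_num
        _ ≤ _ := by gcongr
    omega
  have h1 : ∀ X ∈ L.toFinset, (bad X).card ≤ D * B.card / Q := by
    intro X hX
    rw [List.mem_toFinset] at hX
    obtain ⟨hXA, hXc⟩ := hL X hX
    rw [Nat.le_div_iff_mul_le hQ0]
    have h2 : x * (bad X).card ≤ D * ∑ y ∈ B, (X.filter (fun u => f u y = a)).card := by
      calc x * (bad X).card = ∑ y ∈ bad X, x := by rw [sum_const, smul_eq_mul, mul_comm]
        _ ≤ ∑ y ∈ bad X, D * (X.filter (fun u => f u y = a)).card := by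
            refine sum_le_sum fun y hy => ?_
            have := (mem_filter.1 hy).2
            rw [hXc] at this
            exact this.le
        _ ≤ ∑ y ∈ B, D * (X.filter (fun u => f u y = a)).card :=
            sum_le_sum_of_subset (filter_subset _ _)
        _ = _ := by rw [mul_sum]
    have h3 : Q * ∑ y ∈ B, (X.filter (fun u => f u y = a)).card ≤ x * B.card := by
      rw [← card_prod_right, card_prod_left, mul_sum]
      calc ∑ u ∈ X, Q * (B.filter (fun y => f u y = a)).card ≤ ∑ _u ∈ X, B.card :=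
            sum_le_sum fun u hu => (h u (hXA hu)).le
        _ = x * B.card := by rw [sum_const, smul_eq_mul, hXc]
    have h4 : x * ((bad X).card * Q) ≤ x * (D * B.card) := by
      calc x * ((bad X).card * Q) = Q * (x * (bad X).card) := by ring
        _ ≤ Q * (D * ∑ y ∈ B, (X.filter (fun u => f u y = a)).card) := by gcongr
        _ = D * (Q * ∑ y ∈ B, (X.filter (fun u => f u y = a)).card) := by ring
        _ ≤ D * (x * B.card) := by gcongr
        _ = x * (D * B.card) := by ring
    exact Nat.le_of_mul_le_mul_left h4 hx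
  have h2 : (L.toFinset.biUnion bad).card ≤ m * (D * B.card / Q) := by
    refine (card_biUnion_le_card_mul _ _ _ h1).trans ?_
    gcongr
    exact (List.toFinset_card_le L).trans hLm
  have h3 : 2 * (m * (D * B.card / Q)) ≤ B.card := by
    have h4 : Q * (D * B.card / Q) ≤ D * B.card := Nat.mul_div_le _ _
    have h5 : D * (2 * (m * (D * B.card / Q))) ≤ D * B.card := by
      calc D * (2 * (m * (D * B.card / Q))) = (2 * m * D) * (D * B.card / Q) := by ring
        _ ≤ Q * (D * B.card / Q) := by gcongr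
        _ ≤ _ := h4
    exact Nat.le_of_mul_le_mul_left h5 hD
  have h4 : B \ (B.filter (fun y => ∀ X ∈ L,
      D * (X.filter (fun u => f u y = a)).card ≤ X.card)) ⊆ L.toFinset.biUnion bad := by
    intro y hy
    rw [mem_sdiff, mem_filter, not_and] at hy
    have h5 := hy.2 hy.1
    push Not at h5
    obtain ⟨X, hX, h6⟩ := h5
    exact mem_biUnion.2 ⟨X, List.mem_toFinset.2 hX, mem_filter.2 ⟨hy.1, h6⟩⟩
  have h5 := card_le_card h4
  have h6 := card_sdiff_add_card_eq_card (filter_subset (fun y => ∀ X ∈ L,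
      D * (X.filter (fun u => f u y = a)).card ≤ X.card) B)
  omega

theorem main_rec [Fintype κ] [DecidableEq κ] (f P : ℕ → ℕ → κ) (k Q D x : ℕ) (hk : 1 ≤ k)
    (hQ : 1 ≤ Q) (hD : 1 ≤ D) (hx : 1 ≤ x) :
    ∀ H : ℕ, 2 ^ H * D ≤ Q → ∀ U : Finset ℕ, (2 * k ^ 2 * Q ^ k) ^ H * x ≤ U.card →
      ¬ Emb f P k U → ∃ L : κ → List (Finset ℕ), (∀ a, Fam f D x a U (L a)) ∧
        (∀ a, (L a).length ≤ 2 ^ H) ∧ 2 ^ H ≤ ∏ a, (L a).length := by
  classical
  intro H
  induction H with
  | zero =>
    intro _ U hU _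
    rw [pow_zero, one_mul] at hU
    obtain ⟨X, hX, hXc⟩ := exists_subset_card_eq hU
    refine ⟨fun _ => [X], fun a => ⟨?_, List.pairwise_singleton _ _⟩, fun a => by simp, by simp⟩
    intro Y hY
    rw [List.mem_singleton] at hY
    rw [hY]
    exact ⟨hX, hXc⟩
  | succ H ih =>
    intro hHQ U hU hno
    have hHQ' : 2 ^ H * D ≤ Q := by
      refine le_trans ?_ hHQ
      gcongr
      · norm_num
      · omega
    set W := (2 * k ^ 2 * Q ^ k) ^ H * x with hW
    have hW1 : 1 ≤ W := by
      have : 1 ≤ (2 * k ^ 2 * Q ^ k) ^ H := by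
        apply Nat.one_le_pow
        have := Nat.one_le_pow k Q hQ
        have := Nat.one_le_pow 2 k hk
        positivity
      calc 1 = 1 * 1 := rfl
        _ ≤ _ := Nat.mul_le_mul this hx
    have hU2 : k * (k * Q ^ k * (2 * W)) ≤ U.card := by
      refine le_trans (le_of_eq ?_) hU
      rw [hW, pow_succ]
      ring
    obtain ⟨A, B, a, hA, hB, hAB, hAc, hBc, hab⟩ :=
      pair f P k Q (2 * W) hQ (by omega) U hU2 hno
    obtain ⟨L1, hL1, hL1l, hL1p⟩ := ih hHQ' A (by omega) fun h => hno (h.mono hA)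
    have hpr := prune f Q D x (2 ^ H) hD hx (by
      refine le_trans (le_of_eq ?_) hHQ
      rw [pow_succ]; ring) Nat.one_le_two_pow a A B hab (L1 a) (hL1 a).1 (hL1l a)
    set B' := B.filter (fun y => ∀ X ∈ L1 a,
      D * (X.filter (fun u => f u y = a)).card ≤ X.card) with hB'
    have hB'U : B' ⊆ U := (filter_subset _ _).trans hB
    obtain ⟨L2, hL2, hL2l, hL2p⟩ := ih hHQ' B' (by omega) fun h => hno (h.mono hB'U)
    refine ⟨fun b => if b = a then L1 a ++ L2 a else
      if (L1 b).length ≤ (L2 b).length then L2 b else L1 b, ?_, ?_, ?_⟩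
    · intro b
      beta_reduce
      by_cases hb : b = a
      · rw [if_pos hb, hb]
        refine ⟨?_, ?_⟩
        · intro X hX
          rcases List.mem_append.1 hX with h | h
          · exact ((hL1 a).mono hA).1 X h
          · exact ((hL2 a).mono hB'U).1 X h
        · rw [List.pairwise_append]
          refine ⟨(hL1 a).2, (hL2 a).2, ?_⟩
          intro X hX Y hY
          have hXA := ((hL1 a).1 X hX).1
          have hYB := ((hL2 a).1 Y hY).1
          refine ⟨fun u hu y hy => hAB u (hXA hu) y (mem_filter.1 (hYB hy)).1, ?_⟩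
          rw [card_prod_right, mul_sum]
          calc ∑ y ∈ Y, D * (X.filter (fun u => f u y = a)).card ≤ ∑ _y ∈ Y, X.card :=
                sum_le_sum fun y hy => (mem_filter.1 (hYB hy)).2 X hX
            _ = X.card * Y.card := by rw [sum_const, smul_eq_mul, mul_comm]
      · rw [if_neg hb]
        split_ifs
        · exact (hL2 b).mono hB'U
        · exact (hL1 b).mono hA
    · intro b
      have e : 2 ^ (H + 1) = 2 ^ H + 2 ^ H := by rw [pow_succ]; ring
      have h1 := hL1l b
      have h2 := hL2l b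
      beta_reduce
      by_cases hb : b = a
      · rw [if_pos hb, List.length_append]
        rw [hb] at h1 h2
        omega
      · rw [if_neg hb]
        split_ifs <;> omega
    · have e : 2 ^ (H + 1) = 2 ^ H + 2 ^ H := by rw [pow_succ]; ring
      set g : κ → ℕ := fun b => (if b = a then L1 a ++ L2 a else
        if (L1 b).length ≤ (L2 b).length then L2 b else L1 b).length with hg
      have ga : g a = (L1 a).length + (L2 a).length := by
        rw [hg]
        simp
      have gb1 : ∀ b ∈ univ.erase a, (L1 b).length ≤ g b := by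
        intro b hb
        simp only [hg]
        rw [if_neg (ne_of_mem_erase hb)]
        split_ifs <;> omega
      have gb2 : ∀ b ∈ univ.erase a, (L2 b).length ≤ g b := by
        intro b hb
        simp only [hg]
        rw [if_neg (ne_of_mem_erase hb)]
        split_ifs <;> omega
      have hgoal : 2 ^ (H + 1) ≤ ∏ b, g b := by
        rw [e, ← mul_prod_erase univ g (mem_univ a), ga, add_mul]
        apply add_le_add
        · refine hL1p.trans ?_
          rw [← mul_prod_erase univ _ (mem_univ a)]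
          exact Nat.mul_le_mul_left _ (prod_le_prod' gb1)
        · refine hL2p.trans ?_
          rw [← mul_prod_erase univ _ (mem_univ a)]
          exact Nat.mul_le_mul_left _ (prod_le_prod' gb2)
      exact hgoal

/-- from the product of the lengths: one of the lists is long -/
theorem long [Fintype κ] (q h : ℕ) (hq : Fintype.card κ = q) (g : κ → ℕ)
    (hp : 2 ^ (q * h) ≤ ∏ a, g a) (hq1 : 1 ≤ q) : ∃ a, 2 ^ h ≤ g a := by
  classical
  by_contra hcon
  push Not at hcon
  have h1 : ∏ a, g a ≤ (2 ^ h - 1) ^ (univ : Finset κ).card :=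
    prod_le_pow_card _ _ _ fun a _ => by have := hcon a; omega
  rw [card_univ, hq] at h1
  have h2 : (2 ^ h - 1) ^ q < (2 ^ h) ^ q := by
    apply Nat.pow_lt_pow_left
    · have : 1 ≤ 2 ^ h := Nat.one_le_two_pow
      omega
    · omega
  rw [← pow_mul, mul_comm h q] at h2
  omega

end Pool.Agent.H356U
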